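import Pool.Agent.Lib_helper15.TEM.B.MO
import Pool.Agent.Lib_helper15.TEM.B.MS
import Pool.Agent.Lib_helper15.TEM.B.TX
import Pool.Agent.Lib_helper15.TEM.B.TY
import Pool.Agent.Lib_helper15.TEM.B.EH
import Pool.Agent.Lib_helper15.TEM.B.XL

/-! T12, parts I and IV: all blocks of part A. -/
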