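import Pool.Agent.Lib_helper71.LSP3.AS9
import Pool.Agent.Lib_helper15.TEM.All

/-! T12, parts I and IV: all data at one level, with a mollifier with pointwise bounds (from `LX.dat_exists`). -/

set_option autoImplicit false

namespace Pool.Agent.TEM

open Complex MeasureTheory Set Filter Topology
open Pool.Agent.LSP (tau MX sg1 wX QN KerL ExVec ExData ExZ)
open Pool.Agent.LEV (Um)
open Pool.Agent.LVB (IsST)
open Pool.Agent.LK (V KerC PQ)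
open Pool.Agent.LE
open Pool.Agent.LG (Par Ai J3)
open Pool.Agent.LM (cv Pz th)
open Pool.Agent.LX

/-- the data at one level -/
structure DatT (η : ℝ) (m₀ : ℕ) (s : ℕ → ℝ) (c C : ℝ) (A₁ AA z₀ m₁ : ℕ) (N : ℕ) {q : ℕ} [NeZero q]
    (χ : DirichletCharacter ℂ q) (β : ℝ) (I : Finset ℕ) (P : Measure (ℕ → ℝ)) (K : ℕ)
    (b vB : ℕ → ℝ) (p₀ : ℕ) (F₁ F₂ : ℝ) : Prop where
  prim : ∀ p ∈ I, p.Prime
  st : IsST I P
  K1 : 1 ≤ K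
  K_le : (K : ℝ) ≤ (N : ℝ) ^ dl
  q_le : (q : ℝ) ≤ (N : ℝ) ^ dl
  KI : ∀ p : ℕ, p.Prime → p ≤ K * K → p ∈ I
  KI' : ∀ p : ℕ, p.Prime → p ≤ K * m₀ → p ∈ I
  supp : SuppIn K b
  b_le : ∀ k, |b k| ≤ (N : ℝ) ^ dl
  vB_supp : SuppIn m₁ vB
  vB_le : ∀ e, |vB e| ≤ C
  p0 : p₀.Prime
  p0_ge : q ≤ p₀
  p0_le : (p₀ : ℝ) ^ 2 ≤ N
  qN : (q : ℝ) ^ (2 * A₁) ≤ N
  pt : ∀ x : ℕ → ℝ, |MX K b x| ≤ C * (gz χ β * F₁) *
    (|MX m₁ vB x| * te χ AA z₀ A₁ x * |th p₀ x|)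
  zero : ∑ e ∈ Finset.Icc 1 K, b e * sg1 e / e = 0
  F1 : c ≤ F₁
  F2 : 0 < F₂
  g_ge : c ≤ gz χ β
  d_ge : c * (N : ℝ) ^ (-(dl / 2)) ≤ 1 - β
  j11 : |(JJ χ P I (K * K) (HP K b b) 1 1 N).re - 2 * Mm χ β F₂| ≤ η * Mm χ β F₂
  j22 : |(JJ χ P I (K * K) (HP K b b) 2 2 N).re - Real.log N ^ 2 * Mm χ β F₂| ≤
    η * (Real.log N ^ 2 * Mm χ β F₂)
  j20 : |(JJ χ P I (K * K) (HP K b b) 2 0 N).re - (1 - β) * Real.log N * Mm χ β F₂| ≤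
    η * ((1 - β) * Real.log N * Mm χ β F₂)
  j02 : |(JJ χ P I (K * K) (HP K b b) 0 2 N).re - (1 - β) * Real.log N * Mm χ β F₂| ≤
    η * ((1 - β) * Real.log N * Mm χ β F₂)
  j00 : |(JJ χ P I (K * K) (HP K b b) 0 0 N).re - 6 * (1 - β) ^ 2 * Mm χ β F₂| ≤
    η * ((1 - β) ^ 2 * Mm χ β F₂)
  r1 : |(RR χ P I (K * m₀) (HP (K * m₀) b (vS s)) 1 N).re - gz χ β * F₁| ≤ η * (gz χ β * F₁)
  r2 : |(RR χ P I (K * m₀) (HP (K * m₀) b (vS s)) 2 N).re - Real.log N / 2 * (gz χ β * F₁)| ≤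
    η * (Real.log N * (gz χ β * F₁))
  r0 : |(RR χ P I (K * m₀) (HP (K * m₀) b (vS s)) 0 N).re - (1 - β) * (gz χ β * F₁)| ≤
    η * ((1 - β) * (gz χ β * F₁))
  fin : Mm χ β F₂ * ∑ m ∈ Finset.Icc 1 m₀, s m ^ 2 ≤ (1 + η) * (gz χ β * F₁) ^ 2

/-- lower bound for `g(0) ∏ (1 - 1/p) (1 - χ(p)/p)` -/
theorem gz_low (A₁ : ℕ) : ∃ (c' κ₀ : ℝ) (N₀ : ℕ), 0 < c' ∧ 0 < κ₀ ∧ ∀ N : ℕ, N₀ ≤ N →
    ∀ (q : ℕ) [NeZero q] (χ : DirichletCharacter ℂ q) (β : ℝ), Ex κ₀ N χ β →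
      c' ≤ gz χ β * WW χ (Pz (q ^ A₁)) := by
  obtain ⟨c, hc, hc1, hp⟩ := Pool.Agent.EXC.xpack_pr
  obtain ⟨c', hc', h⟩ := xlow A₁ hc hc1
  refine ⟨c', min c 1, 3, hc', by positivity, fun N hN q _ χ β hE => ?_⟩
  obtain ⟨h0, h1, h2⟩ := Ex.small (min_le_right _ _) hN hE
  obtain ⟨-, g, g₀, hg⟩ := hp q χ hE.pq β hE.zero (h2.trans (min_le_left _ _))
  rw [gz_eq hg hE.lt1]
  exact h q χ hE.pq (Pool.Agent.GA.three_le hE.pq.ne) β g g₀ hE.lt1 (h2.trans (min_le_left _ _)) hg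

theorem e_le (A A₁ : ℕ) : (A : ℝ) ≤ 2 * A + 2 * A₁ + 10 ∧ ((1 : ℕ) : ℝ) ≤ 2 * A + 2 * A₁ + 10 ∧
    ((2 : ℕ) : ℝ) ≤ 2 * A + 2 * A₁ + 10 ∧ ((2 * A : ℕ) : ℝ) ≤ 2 * A + 2 * A₁ + 10 ∧
    ((2 * A₁ : ℕ) : ℝ) ≤ 2 * A + 2 * A₁ + 10 ∧ (1 : ℝ) ≤ 2 * A + 2 * A₁ + 10 := by
  have h2 := Nat.cast_nonneg (α := ℝ) A
  have h3 := Nat.cast_nonneg (α := ℝ) A₁
  push_cast
  refine ⟨?_, ?_, ?_, ?_, ?_, ?_⟩ <;> linarith

/-- all data at one level -/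
theorem dat_existsT {m₀ : ℕ} (hm₀ : 1 ≤ m₀) {s : ℕ → ℝ}
    (hs : SuppIn m₀ s) (hσ : 0 < ∑ m ∈ Finset.Icc 1 m₀, s m ^ 2) {η : ℝ} (hη : 0 < η) :
    ∃ (κ₀ c C : ℝ) (A₁ AA z₀ m₁ N₀ : ℕ), 0 < κ₀ ∧ 0 < c ∧ 0 < C ∧ 1 ≤ A₁ ∧ 1 ≤ AA ∧ ∀ N : ℕ, N₀ ≤ N →
      ∀ (q : ℕ) [NeZero q] (χ : DirichletCharacter ℂ q) (β : ℝ), Ex κ₀ N χ β →
      ∃ (I : Finset ℕ) (P : Measure (ℕ → ℝ)) (K : ℕ) (b vB : ℕ → ℝ) (p₀ : ℕ) (F₁ F₂ : ℝ),
        DatT η m₀ s c C A₁ AA z₀ m₁ N χ β I P K b vB p₀ F₁ F₂ := by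
  have hG : GramS := grams
  have h2 : X2S := x2s
  have h4 : X4S := x4s
  obtain ⟨ε, hε, hε10⟩ := eps_exists hη
  obtain ⟨A₁, κ₁, N₁, hA₁, hκ₁, hX2⟩ := h2 ε hε
  obtain ⟨A, AA, z₀, m₁, C, c, q₀, hAA, hC, hc, hA, hmoll⟩ := mollT hε hs hσ A₁ hA₁
  obtain ⟨κ₂, N₂, hκ₂, hgram⟩ := hG C c η hC hc hη
  obtain ⟨κ₃, N₃, hκ₃, hlarge⟩ := ex_large h4 (q₀ + 3)
  obtain ⟨c₄, κ₄, N₄, hc₄, hκ₄, hX4⟩ := h4
  obtain ⟨c₅, κ₅, N₅, hc₅, hκ₅, hX5⟩ := gz_low A₁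
  obtain ⟨κ₀, hκ₀, hk1, hk2, hk3, hk4, hk6, hk5⟩ : ∃ κ₀ : ℝ, 0 < κ₀ ∧ κ₀ ≤ κ₁ ∧ κ₀ ≤ κ₂ ∧ κ₀ ≤ κ₃ ∧
      κ₀ ≤ κ₄ ∧ κ₀ ≤ κ₅ ∧ κ₀ * (2 * A + 2 * A₁ + 10) ≤ dl / 2 := by
    refine ⟨min (min (min κ₁ κ₂) (min κ₃ κ₄)) (min κ₅ (dl / 2 / (2 * A + 2 * A₁ + 10))), ?_, ?_, ?_,
      ?_, ?_, ?_, ?_⟩
    · have := dl_pos
      exact lt_min (lt_min (lt_min hκ₁ hκ₂) (lt_min hκ₃ hκ₄)) (lt_min hκ₅ (by positivity))
    · exact (min_le_left _ _).trans ((min_le_left _ _).trans (min_le_left _ _))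
    · exact (min_le_left _ _).trans ((min_le_left _ _).trans (min_le_right _ _))
    · exact (min_le_left _ _).trans ((min_le_right _ _).trans (min_le_left _ _))
    · exact (min_le_left _ _).trans ((min_le_right _ _).trans (min_le_right _ _))
    · exact (min_le_right _ _).trans (min_le_left _ _)
    · have h5 : (0 : ℝ) < 2 * (A : ℝ) + 2 * A₁ + 10 := by positivity
      calc min (min (min κ₁ κ₂) (min κ₃ κ₄)) (min κ₅ (dl / 2 / (2 * A + 2 * A₁ + 10))) *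
            (2 * A + 2 * A₁ + 10) ≤ dl / 2 / (2 * A + 2 * A₁ + 10) * (2 * A + 2 * A₁ + 10) :=
            mul_le_mul_of_nonneg_right ((min_le_right _ _).trans (min_le_right _ _)) h5.le
        _ = dl / 2 := by field_simp
  refine ⟨κ₀, min c c₄, C + C / (c₅ * c), A₁, AA, z₀, m₁, N₁ + N₂ + N₃ + N₄ + N₅ + 3, hκ₀,
    lt_min hc hc₄, by positivity, hA₁, hAA, fun N hN q _ χ β hE => ?_⟩
  have hN3 : 3 ≤ N := by omega
  have hN1 : (1 : ℝ) < N := by exact_mod_cast (by omega : 1 < N)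
  have hN0 : (0 : ℝ) < N := by linarith
  have hq3 := hlarge N (by omega) q χ β (hE.mono hk3 hN3)
  have hX2' := hX2 N (by omega) q χ β (hE.mono hk1 hN3)
  obtain ⟨hd, hg⟩ := hX4 N (by omega) q χ β (hE.mono hk4 hN3)
  have hgr := hgram N (by omega) q χ β (hE.mono hk2 hN3)
  have hgW := hX5 N (by omega) q χ β (hE.mono hk6 hN3)
  have hq1 : (1 : ℝ) ≤ q := by exact_mod_cast (by omega : 1 ≤ q)
  have hdl := dl_pos
  have hqN := hE.q_le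
  -- powers of `q`
  have hqpow : ∀ k : ℕ, (k : ℝ) ≤ 2 * A + 2 * A₁ + 10 → (q : ℝ) ^ k ≤ (N : ℝ) ^ (dl / 2) := by
    intro k hk
    calc (q : ℝ) ^ k ≤ ((N : ℝ) ^ κ₀) ^ k := pow_le_pow_left₀ (by linarith) hqN k
      _ = (N : ℝ) ^ (κ₀ * k) := by rw [← Real.rpow_natCast, ← Real.rpow_mul hN0.le]
      _ ≤ (N : ℝ) ^ (dl / 2) := by
          apply Real.rpow_le_rpow_of_exponent_le hN1.le
          refine le_trans ?_ hk5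
          exact mul_le_mul_of_nonneg_left hk hκ₀.le
  have hhalf : (N : ℝ) ^ (dl / 2) ≤ (N : ℝ) ^ dl :=
    Real.rpow_le_rpow_of_exponent_le hN1.le (by linarith)
  have hhalf1 : (N : ℝ) ^ (dl / 2) ≤ N := by
    calc (N : ℝ) ^ (dl / 2) ≤ (N : ℝ) ^ (1 : ℝ) :=
          Real.rpow_le_rpow_of_exponent_le hN1.le (by unfold dl; norm_num)
      _ = N := Real.rpow_one _
  obtain ⟨K, hK⟩ : ∃ K : ℕ, K = q ^ A := ⟨_, rfl⟩
  have hK1 : 1 ≤ K := by rw [hK]; exact Nat.one_le_pow _ _ (by omega)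
  have hKle2 : (K : ℝ) ≤ (N : ℝ) ^ (dl / 2) := by
    rw [hK]
    push_cast
    exact hqpow A (e_le A A₁).1
  obtain ⟨I, hI⟩ : ∃ I : Finset ℕ, I = Pz (K * K * m₀) := ⟨_, rfl⟩
  have hIp : ∀ p ∈ I, p.Prime := by
    intro p hp
    rw [hI] at hp
    unfold Pz at hp
    exact (Finset.mem_filter.mp hp).2
  obtain ⟨P, hP⟩ := Pool.Agent.LVB.st_exists I hIp
  have hsub : Pz (q ^ A) ⊆ I := by
    intro p hp
    rw [← hK] at hp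
    unfold Pz at hp
    rw [Finset.mem_filter, Finset.mem_Icc] at hp
    rw [hI]
    apply Pz_mem hp.2
    calc p ≤ K := hp.1.2
      _ ≤ K * K := Nat.le_mul_of_pos_right _ hK1
      _ ≤ K * K * m₀ := Nat.le_mul_of_pos_right _ hm₀
  have hKI : ∀ p : ℕ, p.Prime → p ≤ K * K → p ∈ I := fun p hp h => by
    rw [hI]
    exact Pz_mem hp (h.trans (Nat.le_mul_of_pos_right _ hm₀))
  have hKI' : ∀ p : ℕ, p.Prime → p ≤ K * m₀ → p ∈ I := fun p hp h => by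
    rw [hI]
    exact Pz_mem hp (h.trans (Nat.mul_le_mul_right _ (Nat.le_mul_of_pos_right _ hK1)))
  have hg0 : 0 < gz χ β := hc₄.trans_le hg
  obtain ⟨b, vB, p₀, F₁, F₂, T₁, hb, hbt, hbz, hF1, hF2, hvB, hvBle, hp0, hp0q, hp0A, hT1, hWT, hpt,
    he2, he1, hs2, hs1, hfin⟩ := hmoll q χ hE.pq (by omega) (gz χ β) hg0.le hX2' I P hIp hP hsub
  rw [← hK] at hb hbz hpt he2 he1 hs2 hs1
  -- the functions
  have hf2 : MX (K * K) (HP K b b) = fun x => MX K b x ^ 2 := by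
    funext x
    rw [mx_hp_pr hb hb le_rfl le_rfl, sq]
  have hvS : SuppIn m₀ (vS s) := sh_supp hs
  have hf1 : MX (K * m₀) (HP (K * m₀) b (vS s)) =
      fun x => MX K b x * ∑ m ∈ Finset.Icc 1 m₀, s m * Um m x := by
    funext x
    rw [mx_hp_pr hb hvS (Nat.le_mul_of_pos_right _ hm₀) le_rfl]
    congr 1
    unfold MX vS
    refine Finset.sum_congr rfl fun m hm => ?_
    have hm' := (Finset.mem_Icc.mp hm).1
    have hm0 : 0 < Real.sqrt m := Real.sqrt_pos.mpr (by exact_mod_cast hm')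
    rw [mul_comm (Real.sqrt m), mul_div_assoc, div_self hm0.ne', mul_one]
  have hBs : SuppIn (K * K) (HP K b b) := hp_supp_pr hb hb
  have hBs' : SuppIn (K * m₀) (HP (K * m₀) b (vS s)) := hp_supp_pr hb hvS
  have hF1' : 0 < F₁ := hc.trans_le hF1
  obtain ⟨g1, g2, g3, g4, g5⟩ := (hgr I P hIp hP (K * K) (Nat.mul_pos hK1 hK1) hKI
    (HP K b b) F₂ hBs hF2).1 (by rw [hf2]; exact he2) (by rw [hf2]; exact hs2)
  obtain ⟨l1, l2, l3⟩ := (hgr I P hIp hP (K * m₀) (Nat.mul_pos hK1 hm₀) hKI'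
    (HP (K * m₀) b (vS s)) F₁ hBs' hF1').2 (by rw [hf1]; exact he1) (by rw [hf1]; exact hs1)
  have hC2 : C ≤ C + C / (c₅ * c) := by
    have : 0 ≤ C / (c₅ * c) := by positivity
    linarith
  refine ⟨I, P, K, b, vB, p₀, F₁, F₂, ?_⟩
  refine
    { prim := hIp, st := hP, K1 := hK1, K_le := hKle2.trans hhalf,
      q_le := by
        have := hqpow 1 (e_le A A₁).2.1
        rw [pow_one] at this
        exact this.trans hhalf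
      KI := hKI, KI' := hKI', supp := hb, b_le := ?_, vB_supp := hvB,
      vB_le := fun e => (hvBle e).trans hC2, p0 := hp0, p0_ge := hp0q, p0_le := ?_,
      qN := (hqpow _ (e_le A A₁).2.2.2.2.1).trans hhalf1, pt := ?_, zero := hbz,
      F1 := (min_le_left _ _).trans hF1, F2 := hF2, g_ge := (min_le_right _ _).trans hg,
      d_ge := ?_, j11 := re_sub_le g1, j22 := re_sub_le g2, j20 := re_sub_le g3,
      j02 := re_sub_le g4, j00 := re_sub_le g5, r1 := re_sub_le l1, r2 := re_sub_le l2,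
      r0 := re_sub_le l3, fin := ?_ }
  · intro k
    exact (hbt k).trans ((hqpow A (e_le A A₁).1).trans hhalf)
  · calc (p₀ : ℝ) ^ 2 ≤ ((q : ℝ) ^ A) ^ 2 := by
          refine pow_le_pow_left₀ (Nat.cast_nonneg _) ?_ 2
          exact_mod_cast hp0A
      _ = (q : ℝ) ^ (2 * A) := by rw [← pow_mul, mul_comm]
      _ ≤ (N : ℝ) ^ (dl / 2) := hqpow _ (e_le A A₁).2.2.2.1
      _ ≤ N := hhalf1
  · intro x
    have hte : 0 ≤ te χ AA z₀ A₁ x := (Real.exp_pos _).le.trans (te_two χ AA z₀ A₁ x).1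
    rw [hpt x, abs_div, abs_mul, abs_mul, abs_of_nonneg hte, abs_of_pos hT1, div_eq_mul_inv]
    have hY : 0 ≤ |MX m₁ vB x| * te χ AA z₀ A₁ x * |th p₀ x| := by positivity
    rw [mul_comm]
    refine mul_le_mul_of_nonneg_right ?_ hY
    have h6 : c₅ ≤ gz χ β * (C * T₁) := hgW.trans (mul_le_mul_of_nonneg_left hWT hg0.le)
    have h7 : T₁⁻¹ ≤ C / c₅ * gz χ β := by
      rw [inv_le_iff_one_le_mul₀ hT1, div_mul_eq_mul_div, div_mul_eq_mul_div, le_div_iff₀ hc₅]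
      linarith
    calc T₁⁻¹ ≤ C / c₅ * gz χ β := h7
      _ = C / (c₅ * c) * (gz χ β * c) := by field_simp
      _ ≤ C / (c₅ * c) * (gz χ β * F₁) := by gcongr
      _ ≤ (C + C / (c₅ * c)) * (gz χ β * F₁) := by
          refine mul_le_mul_of_nonneg_right ?_ (by positivity)
          linarith
  · refine le_trans ?_ hd
    have h5 := hqpow 2 (e_le A A₁).2.2.1
    have hq2 : (0 : ℝ) < (q : ℝ) ^ 2 := by positivity
    rw [Real.rpow_neg hN0.le, le_div_iff₀ hq2]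
    have h6 : 0 < (N : ℝ) ^ (dl / 2) := by positivity
    have h7 : ((N : ℝ) ^ (dl / 2))⁻¹ * (q : ℝ) ^ 2 ≤ 1 := by
      rw [inv_mul_le_iff₀ h6, mul_one]
      exact h5
    calc min c c₄ * ((N : ℝ) ^ (dl / 2))⁻¹ * (q : ℝ) ^ 2 =
        min c c₄ * (((N : ℝ) ^ (dl / 2))⁻¹ * (q : ℝ) ^ 2) := by ring
      _ ≤ c₄ * 1 := mul_le_mul (min_le_right _ _) h7 (by positivity) hc₄.le
      _ = c₄ := mul_one _
  · have h5 : Mm χ β F₂ * ∑ m ∈ Finset.Icc 1 m₀, s m ^ 2 = gz χ β ^ 2 *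
        (gz χ β ^ 2 * ((q.totient : ℝ) / q / ‖zq q 2‖) * F₂ * ∑ m ∈ Finset.Icc 1 m₀, s m ^ 2) := by
      unfold Mm
      ring
    rw [h5]
    calc gz χ β ^ 2 *
        (gz χ β ^ 2 * ((q.totient : ℝ) / q / ‖zq q 2‖) * F₂ * ∑ m ∈ Finset.Icc 1 m₀, s m ^ 2) ≤
        gz χ β ^ 2 * ((1 + ε) ^ 10 * F₁ ^ 2) := mul_le_mul_of_nonneg_left hfin (sq_nonneg _)
      _ ≤ gz χ β ^ 2 * ((1 + η) * F₁ ^ 2) := by gcongr
      _ = (1 + η) * (gz χ β * F₁) ^ 2 := by ring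

end Pool.Agent.TEM
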