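import Pool.Agent.Lib_helper53.LM.Defs

/-!
# T12, parts I and IV: a mollifier of the exceptional zero with pointwise bounds. Definitions.

`te` is a product over blocks of truncated exponentials of `- ∑ (1 + χ(p)) x_p / √p`: it is positive, and up to
`exp (± ∑_i |PX_i|)` equal to one. `Z = q^(2 A₁)`; the primes are those in `(z₀, q^A₁]`.
-/

set_option autoImplicit false

namespace Pool.Agent.TEM

open Complex MeasureTheory ProbabilityTheory
open Pool.Agent.LSP (tau MX)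
open Pool.Agent.LEV (Uu Um)
open Pool.Agent.LVB (IsST el ex HB PB JJ Bk Kk)
open Pool.Agent.LK (PQ)
open Pool.Agent.LE
open Pool.Agent.LM (cv pp ep Pz th IsV)

variable {q : ℕ} [NeZero q]

/-- the exponent at one prime -/
noncomputable def lx (χ : DirichletCharacter ℂ q) (p : ℕ) (y : ℝ) : ℝ :=
  (1 + cv χ p) * y / Real.sqrt p

/-- the sum over the primes in `B` -/
noncomputable def PX (χ : DirichletCharacter ℂ q) (B : Finset ℕ) (x : ℕ → ℝ) : ℝ :=
  ∑ p ∈ B, lx χ p (x p)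

/-- the block `i` -/
noncomputable def bl (z₀ A₁ q i : ℕ) : Finset ℕ := Bk (1 / 2) z₀ (q ^ (2 * A₁)) i

/-- the number of blocks -/
noncomputable def nb (A₁ q : ℕ) : ℕ := JJ (q ^ (2 * A₁))

/-- the degree in block `i` -/
noncomputable def dg (A A₁ q i : ℕ) : ℕ := Kk A (q ^ (2 * A₁)) i

/-- the rough part of the mollifier -/
noncomputable def te (χ : DirichletCharacter ℂ q) (A z₀ A₁ : ℕ) (x : ℕ → ℝ) : ℝ :=
  ∏ i ∈ Finset.range (nb A₁ q), ex (dg A A₁ q i) (-PX χ (bl z₀ A₁ q i) x)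

/-- the sum of the absolute values of the exponents of the blocks -/
noncomputable def sx (χ : DirichletCharacter ℂ q) (z₀ A₁ : ℕ) (x : ℕ → ℝ) : ℝ :=
  ∑ i ∈ Finset.range (nb A₁ q), |PX χ (bl z₀ A₁ q i) x|

/-- the local mean for the linear functional -/
noncomputable def r1 (χ : DirichletCharacter ℂ q) (P : Measure (ℕ → ℝ)) (p : ℕ) : ℝ :=
  (∫ x, Real.exp (-lx χ p (x p)) * pp χ p (x p) ∂P) / ∫ x, pp χ p (x p) ∂P

/-- the local mean for the quadratic form -/
noncomputable def r2 (χ : DirichletCharacter ℂ q) (P : Measure (ℕ → ℝ)) (p : ℕ) : ℝ :=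
  (∫ x, Real.exp (-(2 * lx χ p (x p))) * pp χ p (x p) ^ 2 ∂P) / ∫ x, pp χ p (x p) ^ 2 ∂P

/-- the primes of the rough part -/
def PP (z₀ A₁ q : ℕ) : Finset ℕ := Pz (q ^ A₁) \ Pz z₀

/-- the Euler product -/
noncomputable def WW (χ : DirichletCharacter ℂ q) (S : Finset ℕ) : ℝ :=
  ∏ p ∈ S, (1 - 1 / (p : ℝ)) * (1 - cv χ p / p)

/-- a product of four local factors -/
noncomputable def e4 (p : ℕ) (a b c d : ℂ) (y : ℝ) : ℂ := el p a y * el p b y * (el p c y * el p d y)

end Pool.Agent.TEM
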