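import Pool.Agent.Lib_helper15.TEM.OneF
import Pool.Agent.Lib_helper15.TEM.Plus

/-! T12, part IV: lower bounds for central values, in the presence of an exceptional zero. -/

set_option autoImplicit false

namespace Pool.Agent.TEM

open Complex MeasureTheory Set Filter Topology
open Pool.Agent.LSP (tau MX sg1 wX QN KerL ExVec ExData ExZ)
open Pool.Agent.LEV (Um S2 IsNew co la Lh nr HAR_cheb nr_pos new_ne_zero_pr nat_of_harm new_fin)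
open Pool.Agent.LVB (IsST om AllNew)
open Pool.Agent.KSL (fid_om)
open Pool.Agent.LK (V KerC PQ)
open Pool.Agent.LE
open Pool.Agent.LM (cv Pz th)
open Pool.Agent.LX

/-- typical size of the mollifier -/
theorem typ_all {τ δ : ℝ} (hτ : 0 < τ) (hδ : 0 < δ) (C D : ℝ) (A₁ AA z₀ m₁ : ℕ) : ∃ (p₁ N₀ : ℕ),
    ∀ (N : ℕ) [Fact N.Prime], N₀ ≤ N → ∀ (q : ℕ) [NeZero q] (χ : DirichletCharacter ℂ q), PQ χ →
    p₁ ≤ q → (q : ℝ) ^ (2 * A₁) ≤ N → ∀ p₀ : ℕ, p₀.Prime → q ≤ p₀ → (p₀ : ℝ) ^ 2 ≤ N →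
    ∀ vB : ℕ → ℝ, SuppIn m₁ vB → (∀ e, |vB e| ≤ C) → ∃ Bad : S2 N → Prop, Small N τ Bad ∧
      ∀ f : S2 N, ¬ Bad f → D * (|MX m₁ vB (la f)| * te χ AA z₀ A₁ (la f) * |th p₀ (la f)|) ≤
        Real.log N ^ δ := by
  obtain ⟨N₂, hN₂⟩ := typ_te (ε := τ / 4) (δ := δ / 2) (by positivity) (by positivity) z₀ A₁
  obtain ⟨p₁, hp₁⟩ := typ_th (ε := τ / 4) (by positivity)
  obtain ⟨C', N₃, hC', hN₃⟩ := typ_b (ε := τ / 4) (by positivity) C m₁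
  obtain ⟨N₄, hN₄⟩ := log_big (|D| * C' * 2) (b := δ / 2) (by positivity)
  refine ⟨p₁, N₂ + p₁ + N₃ + N₄, fun N _ hN q _ χ hχ hq hqN p₀ hp0 hp0q hp0N vB hvB hvBle => ?_⟩
  obtain ⟨hL0, hL1⟩ := hN₄ N (by omega)
  have h1 : Small N (τ / 4) (fun f => δ / 2 * Real.log (Real.log N) < sx χ z₀ A₁ (la f)) :=
    fun ι _ f hf u hu => hN₂ N (by omega) q χ hχ hqN f hf u hu
  have h2 : Small N (τ / 4) (fun f => ¬ (1 / 2 ≤ th p₀ (la f) ∧ th p₀ (la f) ≤ 2)) :=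
    fun ι _ f hf u hu => hp₁ N (by omega) p₀ hp0 (by omega) hp0N f hf u hu
  have h3 : Small N (τ / 4) (fun f => C' < |MX m₁ vB (la f)|) :=
    fun ι _ f hf u hu => hN₃ N (by omega) vB hvB hvBle f hf u hu
  refine ⟨_, ((h1.or h2).or h3).mono (by linarith) fun f hf => hf, fun f hf => ?_⟩
  push Not at hf
  obtain ⟨⟨c1, c2, c2'⟩, c3⟩ := hf
  obtain ⟨L, hL⟩ : ∃ L : ℝ, L = Real.log N := ⟨_, rfl⟩
  rw [← hL] at hL0 hL1 c1 ⊢
  have hLp : 0 < L := by linarith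
  have hte := (te_two χ AA z₀ A₁ (la f)).2
  have hte0 : 0 < te χ AA z₀ A₁ (la f) :=
    (Real.exp_pos _).trans_le (te_two χ AA z₀ A₁ (la f)).1
  have e1 : te χ AA z₀ A₁ (la f) ≤ L ^ (δ / 2) := by
    refine hte.trans ?_
    rw [Real.rpow_def_of_pos hLp]
    apply Real.exp_le_exp.mpr
    linarith
  have e2 : |th p₀ (la f)| ≤ 2 := by
    rw [abs_of_nonneg (by linarith)]
    exact c2'
  have e3 : |MX m₁ vB (la f)| * te χ AA z₀ A₁ (la f) * |th p₀ (la f)| ≤ C' * L ^ (δ / 2) * 2 :=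
    mul_le_mul (mul_le_mul c3 e1 hte0.le hC'.le) e2 (abs_nonneg _) (by positivity)
  have e4 : 0 ≤ |MX m₁ vB (la f)| * te χ AA z₀ A₁ (la f) * |th p₀ (la f)| := by positivity
  calc D * (|MX m₁ vB (la f)| * te χ AA z₀ A₁ (la f) * |th p₀ (la f)|) ≤
        |D| * (|MX m₁ vB (la f)| * te χ AA z₀ A₁ (la f) * |th p₀ (la f)|) :=
          mul_le_mul_of_nonneg_right (le_abs_self D) e4
    _ ≤ |D| * (C' * L ^ (δ / 2) * 2) := mul_le_mul_of_nonneg_left e3 (abs_nonneg _)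
    _ = (|D| * C' * 2) * L ^ (δ / 2) := by ring
    _ ≤ L ^ (δ / 2) * L ^ (δ / 2) := mul_le_mul_of_nonneg_right hL0 (by positivity)
    _ = L ^ δ := by
        rw [← Real.rpow_add hLp]
        congr 1
        ring

theorem ncard_mono {N : ℕ} [Fact N.Prime] {P Q : S2 N → Prop} (h : ∀ f, P f → Q f) :
    ({f : S2 N | (IsNew f ∧ co f N = 1) ∧ P f}.ncard : ℝ) ≤
      ({f : S2 N | (IsNew f ∧ co f N = 1) ∧ Q f}.ncard : ℝ) := by
  obtain ⟨_, _, hnf⟩ := new_fin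
  have hF : {f : S2 N | IsNew f}.Finite := (hnf N).1
  have hfin : {f : S2 N | (IsNew f ∧ co f N = 1) ∧ Q f}.Finite := hF.subset fun f hf => hf.1.1
  have hsub : {f : S2 N | (IsNew f ∧ co f N = 1) ∧ P f} ⊆
      {f : S2 N | (IsNew f ∧ co f N = 1) ∧ Q f} := fun f hf => ⟨hf.1, h f hf.2⟩
  exact_mod_cast Set.ncard_le_ncard hsub hfin

theorem mx_zero {E : ℕ} {x : ℕ → ℝ} (h : ∑ n ∈ Finset.Icc 1 E, x n ^ 2 / n = 0) (la : ℕ → ℝ) :
    MX E x la = 0 := by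
  have h1 := (Finset.sum_eq_zero_iff_of_nonneg (fun n _ => by positivity)).mp h
  unfold MX
  refine Finset.sum_eq_zero fun n hn => ?_
  have h2 := h1 n hn
  have h3 : (n : ℝ) ≠ 0 := by
    have := (Finset.mem_Icc.mp hn).1
    positivity
  have h4 : x n = 0 := by
    rcases div_eq_zero_iff.mp h2 with h5 | h5
    · exact pow_eq_zero_iff two_ne_zero |>.mp h5
    · exact absurd h5 h3
  rw [h4]
  simp

/-- **part IV, class `χ(-N) = -1`** -/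
theorem four_minus : ∀ ε : ℝ, 0 < ε → ∃ κ : ℝ, 0 < κ ∧ ∀ δ : ℝ, 0 < δ → ∃ N₀ : ℕ, ∀ (N : ℕ)
    [Fact N.Prime], N₀ ≤ N → ∀ (q : ℕ) [NeZero q] (χ : DirichletCharacter ℂ q) (β : ℝ),
    Ex κ N χ β → χ (-(N : ZMod q)) = -1 →
    (1 - ε) * (N / 24) ≤ ({f : S2 N | (IsNew f ∧ co f N = 1) ∧
      Real.log N ^ (-δ) ≤ ‖Lh f‖ * |U χ 1 N (la f)|}.ncard : ℝ) := by
  intro ε hε
  obtain ⟨m₀, s, e, κ', τ, N₁, hm₀, hs, he, hκ', hτ, hex⟩ :=
    ex_natT (q := 1) (by norm_num) (by norm_num) hε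
  rcases (Finset.sum_nonneg fun m (_ : m ∈ Finset.Icc 1 m₀) => sq_nonneg (s m)).eq_or_lt with h | h
  · obtain ⟨N₂, hN₂⟩ := vec_zero 1 hs h.symm he
    refine ⟨1, one_pos, fun δ _ => ⟨N₁ + N₂, fun N _ hN q _ χ β _ _ => ?_⟩⟩
    obtain ⟨T, ρ, B₀, E, x, hx, h0⟩ := hN₂ N (by omega)
    have h1 := hex N (by omega) T ρ B₀ E x hx (fun _ => False) (fun f hf u hu => by
      have : u = ∅ := Finset.eq_empty_of_forall_notMem fun i hi => hu i hi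
      rw [this, Finset.sum_empty]
      exact hτ.le)
    refine h1.trans (ncard_mono fun f hf => ?_)
    have h2 := hf.1
    rw [mx_zero h0, abs_zero, mul_zero] at h2
    exact absurd h2 (not_le.mpr hκ')
  · obtain ⟨κ₀, C, A₁, AA, z₀, m₁, N₂, hκ₀, hC, -, -, hmin⟩ := minus_mainT hm₀ hs h he
    obtain ⟨κ₃, hκ₃, hlarge⟩ := large_u
    refine ⟨min κ₀ κ₃, lt_min hκ₀ hκ₃, fun δ hδ => ?_⟩
    obtain ⟨p₁, N₃, hN₃⟩ := typ_all hτ (δ := δ) hδ C (C / κ') A₁ AA z₀ m₁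
    obtain ⟨N₄, hN₄⟩ := hlarge p₁
    obtain ⟨N₅, hN₅⟩ := log_big 1 hδ
    refine ⟨N₁ + N₂ + N₃ + N₄ + N₅ + 3, fun N _ hN q _ χ β hE hpar => ?_⟩
    have hN3 : 3 ≤ N := by omega
    obtain ⟨E, x, vB, ρ, B₀, p₀, hv, hvB, hvBle, hp0, hp0q, hp0N, hqN, hpt⟩ :=
      hmin N (by omega) Fact.out q χ β (hE.mono (min_le_left _ _) hN3) (by rw [hpar]; norm_num)
    obtain ⟨Bad, hBad, hgood⟩ := hN₃ N (by omega) q χ hE.pq
      (hN₄ N (by omega) q χ β (hE.mono (min_le_right _ _) hN3)) hqN p₀ hp0 hp0q hp0N vB hvB hvBle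
    have hL1 := (hN₅ N (by omega)).2
    have hLp : 0 < Real.log N := by linarith
    have h1 := hex N (by omega) _ ρ B₀ E x hv Bad (fun f hf u hu => hBad _ f hf u hu)
    refine h1.trans (ncard_mono fun f hf => ?_)
    obtain ⟨h2, h3⟩ := hf
    have h4 := hgood f h3
    have h5 := hpt (la f)
    have hY : 0 ≤ |MX m₁ vB (la f)| * te χ AA z₀ A₁ (la f) * |th p₀ (la f)| := by
      have := (Real.exp_pos _).trans_le (te_two χ AA z₀ A₁ (la f)).1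
      positivity
    obtain ⟨Y, hYd⟩ : ∃ Y : ℝ, Y = |MX m₁ vB (la f)| * te χ AA z₀ A₁ (la f) * |th p₀ (la f)| :=
      ⟨_, rfl⟩
    rw [← hYd] at h4 h5 hY
    have h6 : κ' ≤ κ' * ((‖Lh f‖ * |U χ 1 N (la f)|) * Real.log N ^ δ) := by
      calc κ' ≤ ‖Lh f‖ * |MX E x (la f)| := h2
        _ ≤ ‖Lh f‖ * (C * |U χ 1 N (la f)| * Y) := mul_le_mul_of_nonneg_left h5 (norm_nonneg _)
        _ = κ' * ((‖Lh f‖ * |U χ 1 N (la f)|) * (C / κ' * Y)) := by field_simp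
        _ ≤ κ' * ((‖Lh f‖ * |U χ 1 N (la f)|) * Real.log N ^ δ) := by gcongr
    have h7 : 1 ≤ (‖Lh f‖ * |U χ 1 N (la f)|) * Real.log N ^ δ := by
      have := (le_mul_iff_one_le_right hκ').mp h6
      exact this
    rw [Real.rpow_neg hLp.le, inv_le_iff_one_le_mul₀ (by positivity)]
    exact h7

/-- **part IV, class `χ(-N) = 1`** -/
theorem four_plus : ∀ ε : ℝ, 0 < ε → ∃ κ : ℝ, 0 < κ ∧ ∀ δ : ℝ, 0 < δ → ∃ N₀ : ℕ, ∀ (N : ℕ)
    [Fact N.Prime], N₀ ≤ N → ∀ (q : ℕ) [NeZero q] (χ : DirichletCharacter ℂ q) (β : ℝ),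
    Ex κ N χ β → χ (-(N : ZMod q)) = 1 →
    (3 / 5 - ε) * (N / 24) ≤ ({f : S2 N | (IsNew f ∧ co f N = 1) ∧ Real.log N ^ (-δ) ≤
      ‖Lh f‖ * (|U χ 2 N (la f)| / Real.log N + |U χ 0 N (la f)| / (1 - β))}.ncard : ℝ) := by
  intro ε hε
  obtain ⟨m₀, s, e, κ', τ, N₁, hm₀, hs, he, hκ', hτ, hex⟩ :=
    ex_natT (q := 3 / 5) (by norm_num) (by norm_num) hε
  rcases (Finset.sum_nonneg fun m (_ : m ∈ Finset.Icc 1 m₀) => sq_nonneg (s m)).eq_or_lt with h | h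
  · obtain ⟨N₂, hN₂⟩ := vec_zero (3 / 5) hs h.symm he
    refine ⟨1, one_pos, fun δ _ => ⟨N₁ + N₂, fun N _ hN q _ χ β _ _ => ?_⟩⟩
    obtain ⟨T, ρ, B₀, E, x, hx, h0⟩ := hN₂ N (by omega)
    have h1 := hex N (by omega) T ρ B₀ E x hx (fun _ => False) (fun f hf u hu => by
      have : u = ∅ := Finset.eq_empty_of_forall_notMem fun i hi => hu i hi
      rw [this, Finset.sum_empty]
      exact hτ.le)
    refine h1.trans (ncard_mono fun f hf => ?_)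
    have h2 := hf.1
    rw [mx_zero h0, abs_zero, mul_zero] at h2
    exact absurd h2 (not_le.mpr hκ')
  · obtain ⟨κ₀, C, A₁, AA, z₀, m₁, N₂, hκ₀, hC, -, -, hmin⟩ := plus_mainT hm₀ hs h he
    obtain ⟨κ₃, hκ₃, hlarge⟩ := large_u
    refine ⟨min κ₀ κ₃, lt_min hκ₀ hκ₃, fun δ hδ => ?_⟩
    obtain ⟨p₁, N₃, hN₃⟩ := typ_all hτ (δ := δ) hδ C (C / κ') A₁ AA z₀ m₁
    obtain ⟨N₄, hN₄⟩ := hlarge p₁
    obtain ⟨N₅, hN₅⟩ := log_big 1 hδ
    refine ⟨N₁ + N₂ + N₃ + N₄ + N₅ + 3, fun N _ hN q _ χ β hE hpar => ?_⟩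
    have hN3 : 3 ≤ N := by omega
    obtain ⟨E, x, vB, ρ, B₀, p₀, hv, hvB, hvBle, hp0, hp0q, hp0N, hqN, hpt⟩ :=
      hmin N (by omega) Fact.out q χ β (hE.mono (min_le_left _ _) hN3) (by rw [hpar]; norm_num)
    obtain ⟨Bad, hBad, hgood⟩ := hN₃ N (by omega) q χ hE.pq
      (hN₄ N (by omega) q χ β (hE.mono (min_le_right _ _) hN3)) hqN p₀ hp0 hp0q hp0N vB hvB hvBle
    have hL1 := (hN₅ N (by omega)).2
    have hLp : 0 < Real.log N := by linarith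
    have hd0 : 0 < 1 - β := by have := hE.lt1; linarith
    have h1 := hex N (by omega) _ ρ B₀ E x hv Bad (fun f hf u hu => hBad _ f hf u hu)
    refine h1.trans (ncard_mono fun f hf => ?_)
    obtain ⟨h2, h3⟩ := hf
    have h4 := hgood f h3
    have h5 := hpt (la f)
    have hY : 0 ≤ |MX m₁ vB (la f)| * te χ AA z₀ A₁ (la f) * |th p₀ (la f)| := by
      have := (Real.exp_pos _).trans_le (te_two χ AA z₀ A₁ (la f)).1
      positivity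
    obtain ⟨Y, hYd⟩ : ∃ Y : ℝ, Y = |MX m₁ vB (la f)| * te χ AA z₀ A₁ (la f) * |th p₀ (la f)| :=
      ⟨_, rfl⟩
    rw [← hYd] at h4 h5 hY
    obtain ⟨X, hX⟩ : ∃ X : ℝ, X = |U χ 2 N (la f)| / Real.log N + |U χ 0 N (la f)| / (1 - β) :=
      ⟨_, rfl⟩
    have hX0 : 0 ≤ X := by rw [hX]; positivity
    rw [← hX] at h5 ⊢
    have h6 : κ' ≤ κ' * ((‖Lh f‖ * X) * Real.log N ^ δ) := by
      calc κ' ≤ ‖Lh f‖ * |MX E x (la f)| := h2
        _ ≤ ‖Lh f‖ * (C * X * Y) := mul_le_mul_of_nonneg_left h5 (norm_nonneg _)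
        _ = κ' * ((‖Lh f‖ * X) * (C / κ' * Y)) := by field_simp
        _ ≤ κ' * ((‖Lh f‖ * X) * Real.log N ^ δ) := by gcongr
    have h7 : 1 ≤ (‖Lh f‖ * X) * Real.log N ^ δ := (le_mul_iff_one_le_right hκ').mp h6
    rw [Real.rpow_neg hLp.le, inv_le_iff_one_le_mul₀ (by positivity)]
    exact h7

end Pool.Agent.TEM
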