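import Pool.Agent.Lib_helper41.LSP3.GEO

/-! T12, part I: the second moment is bounded by the quadratic form (from `LSP.geo_zero`, with norms). -/

set_option autoImplicit false

namespace Pool.Agent.TEMG

open Pool.Agent.LSP
open Pool.Agent.LEV Pool.Agent.LVB Pool.Agent.KSL
open Pool.Agent.FG61 (mu phi cc ff AA Lam)
open Complex MeasureTheory Filter Topology UpperHalfPlane ModularGroup ProbabilityTheory
open scoped MatrixGroups Modular ENNReal ModularForm ComplexConjugate ContDiff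

/-- the second moment, with norms (from `LSP.geo_zero`) -/
theorem geo_norm {T : ℝ} {ρ : ℝ → ℝ} (hρ : KerL T ρ) {B₀ : ℕ} (hB : 1 + T ^ 2 ≤ (B₀ : ℝ))
    (N : ℕ) [Fact N.Prime] (E : ℕ) (hE1 : 1 ≤ E) (hEN : E < N)
    (x : ℕ → ℝ) (hx : ∀ e, x e ≠ 0 → 1 ≤ e ∧ e ≤ E) (hx0 : ∑ e ∈ Finset.Icc 1 E, x e * sg1 e / e = 0)
    {ι : Type} [Fintype ι] (f : ι → S2 N) (hi : Function.Injective f) (hn : ∀ i, IsNew (f i)) :
    ∑ i, om (f i) * (‖Lh (f i)‖ * |MX E x (la (f i))|) ^ 2 ≤ QN ρ T B₀ E x N := by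
  have hNp : N.Prime := Fact.out
  have hN1 : 1 ≤ N := hNp.one_lt.le
  set w : ℕ → ℝ := wX E x with hw
  have hLR : ∀ Y : ℝ, ∑ i, om (f i) * ‖2 * Real.pi * ipH (f i) (KY ρ N E w Y)‖ ^ 2 ≤
      Real.pi * (PP N (KY ρ N E w Y) (KY ρ N E w Y)).re := fun Y =>
    fam_bessel (N := N) (ky_bd hρ hN1 E w Y) f hi hn
  have hLlim : Tendsto (fun Y : ℝ => ∑ i, om (f i) * ‖2 * Real.pi * ipH (f i) (KY ρ N E w Y)‖ ^ 2)
      atTop (𝓝 (∑ i, om (f i) * ‖Lh (f i) * ((MX E x (la (f i)) : ℝ) : ℂ)‖ ^ 2)) := by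
    refine tendsto_finsetSum _ fun i _ => Tendsto.const_mul _ ?_
    exact (Tendsto.norm (GFI_ky_lim hρ (hn i) hEN hx)).pow 2
  have hRlim : Tendsto (fun Y : ℝ => Real.pi * (PP N (KY ρ N E w Y) (KY ρ N E w Y)).re) atTop
      (𝓝 (Real.pi * (QN ρ T B₀ E x N / Real.pi))) :=
    Tendsto.const_mul _ (pp_lim hρ hB hNp hE1 hEN hx hx0)
  have hmain := le_of_tendsto_of_tendsto' hLlim hRlim hLR
  have hpi0 : Real.pi ≠ 0 := Real.pi_pos.ne'
  rw [mul_div_cancel₀ _ hpi0] at hmain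
  refine le_trans (le_of_eq (Finset.sum_congr rfl fun i _ => ?_)) hmain
  rw [norm_mul, Complex.norm_real, Real.norm_eq_abs]

end Pool.Agent.TEMG
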