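import Pool.Agent.Lib_helper15.TEM.Vec

/-! T12, part IV: class `χ(-N) = -1` (from `LX.minus_main`). -/

set_option autoImplicit false

namespace Pool.Agent.TEM

open Complex MeasureTheory Set Filter Topology
open Pool.Agent.LSP (tau MX sg1 wX QN KerL ExVec ExData ExZ)
open Pool.Agent.LEV (Um)
open Pool.Agent.LVB (IsST)
open Pool.Agent.LK (V KerC PQ)
open Pool.Agent.LE
open Pool.Agent.LG (Par Ai J3)
open Pool.Agent.LM (cv Pz th)
open Pool.Agent.LX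

/-- the smooth twist of a form -/
noncomputable def U {q : ℕ} [NeZero q] (χ : DirichletCharacter ℂ q) (i N : ℕ) (la : ℕ → ℝ) : ℝ :=
  MX (Aa q N) (xv χ i (Yy q N) (Aa q N)) la

theorem mx_uu {q : ℕ} [NeZero q] (χ : DirichletCharacter ℂ q) (J : Finset ℕ) (θ : ℕ → ℝ) (N : ℕ)
    (la : ℕ → ℝ) : MX (Aa q N) (uu χ J θ N) la = ∑ i ∈ J, θ i * U χ i N la := by
  unfold U MX uu
  simp only [Finset.mul_sum, Finset.sum_mul, Finset.sum_div]
  rw [Finset.sum_comm]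
  refine Finset.sum_congr rfl fun i _ => Finset.sum_congr rfl fun e _ => ?_
  ring

theorem mx_xx {q : ℕ} [NeZero q] (χ : DirichletCharacter ℂ q) (J : Finset ℕ) (θ : ℕ → ℝ)
    {N K : ℕ} (hK : 1 ≤ K) {b : ℕ → ℝ} (hb : SuppIn K b) (la : ℕ → ℝ) :
    MX (Aa q N * K ^ 2) (xx χ J θ N K b) la = (∑ i ∈ J, θ i * U χ i N la) * MX K b la := by
  unfold xx
  rw [← mx_uu]
  exact mx_hp_pr (uu_supp χ J θ N) hb (Nat.le_mul_of_pos_right _ (pow_pos hK 2))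
    (Nat.mul_le_mul_left _ (by nlinarith)) la

/-- class `χ(-N) = -1` -/
theorem minus_mainT {m₀ : ℕ} (hm₀ : 1 ≤ m₀) {s : ℕ → ℝ}
    (hs : SuppIn m₀ s) (hσ : 0 < ∑ m ∈ Finset.Icc 1 m₀, s m ^ 2) {e : ℝ} (he : 0 < e) :
    ∃ (κ₀ C : ℝ) (A₁ AA z₀ m₁ N₀ : ℕ), 0 < κ₀ ∧ 0 < C ∧ 1 ≤ A₁ ∧ 1 ≤ AA ∧
      ∀ N : ℕ, N₀ ≤ N → N.Prime →
      ∀ (q : ℕ) [NeZero q] (χ : DirichletCharacter ℂ q) (β : ℝ), Ex κ₀ N χ β →
      χ (-(N : ZMod q)) = (-1) ^ 1 → ∃ (E : ℕ) (x vB : ℕ → ℝ) (ρ : ℝ → ℝ) (B₀ p₀ : ℕ),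
        ExVec 1 m₀ s e N ((N : ℝ) ^ nu) ρ B₀ E x ∧
        SuppIn m₁ vB ∧ (∀ e, |vB e| ≤ C) ∧ p₀.Prime ∧ q ≤ p₀ ∧ (p₀ : ℝ) ^ 2 ≤ N ∧
        (q : ℝ) ^ (2 * A₁) ≤ N ∧ ∀ la : ℕ → ℝ, |MX E x la| ≤ C * |U χ 1 N la| *
          (|MX m₁ vB la| * te χ AA z₀ A₁ la * |th p₀ la|) := by
  obtain ⟨σ, hσd⟩ : ∃ σ : ℝ, σ = ∑ m ∈ Finset.Icc 1 m₀, s m ^ 2 := ⟨_, rfl⟩
  have hσ0 : 0 < σ := by rw [hσd]; exact hσ
  obtain ⟨η, hη0, hη1, hησ⟩ : ∃ η : ℝ, 0 < η ∧ η ≤ 1 ∧ η * σ ≤ e / 8 := by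
    refine ⟨min 1 (e / 8 / σ), by positivity, min_le_left _ _, ?_⟩
    calc min 1 (e / 8 / σ) * σ ≤ e / 8 / σ * σ :=
          mul_le_mul_of_nonneg_right (min_le_right _ _) hσ0.le
      _ = e / 8 := by field_simp
  obtain ⟨κ₀, c, C, A₁, AA, z₀, m₁, N₁, hκ₀, hc, hC, hA₁, hAA, hdat⟩ := dat_existsT hm₀ hs hσ hη0
  obtain ⟨N₂, hN₂⟩ := vec_existsT {1} hm₀ hs he 1 η c C A₁ AA z₀ m₁
  obtain ⟨N₃, hN₃⟩ := as_grow (σ / (c * c)) 0 dl_pos
  refine ⟨κ₀, C + σ * C, A₁, AA, z₀, m₁, N₁ + N₂ + N₃ + 3, hκ₀, by positivity, hA₁, hAA,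
    fun N hN hNp q _ χ β hE hpar => ?_⟩
  obtain ⟨I, P, K, b, vB, p₀, F₁, F₂, hD⟩ := hdat N (by omega) q χ β hE
  have hF1 : 0 < F₁ := hc.trans_le hD.F1
  have hg : 0 < gz χ β := hc.trans_le hD.g_ge
  have hlogN : 0 ≤ Real.log N := Real.log_natCast_nonneg N
  obtain ⟨G, hGd⟩ : ∃ G : ℝ, G = gz χ β * F₁ := ⟨_, rfl⟩
  have hG0 : 0 < G := by rw [hGd]; positivity
  have hGc : c * c ≤ G := by
    rw [hGd]
    exact mul_le_mul hD.g_ge hD.F1 hc.le hg.le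
  obtain ⟨M, hMd⟩ : ∃ M : ℝ, M = Mm χ β F₂ := ⟨_, rfl⟩
  have hj := hD.j11
  have hr := hD.r1
  have hfin := hD.fin
  rw [← hMd] at hj hfin
  rw [← hGd] at hr hfin
  rw [← hσd] at hfin
  have hθ : |σ / G| ≤ σ / (c * c) := by
    rw [abs_of_pos (by positivity)]
    gcongr
  have hθ' : |σ / G| ≤ (N : ℝ) ^ dl := hθ.trans (by simpa using hN₃ N (by omega))
  have haM : (σ / G) ^ 2 * M ≤ σ * (1 + η) := by
    rw [div_pow, div_mul_eq_mul_div, div_le_iff₀ (by positivity)]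
    calc σ ^ 2 * M = σ * (M * σ) := by ring
      _ ≤ σ * ((1 + η) * G ^ 2) := mul_le_mul_of_nonneg_left hfin hσ0.le
      _ = σ * (1 + η) * G ^ 2 := by ring
  obtain ⟨ρ, B₀, hv⟩ := hN₂ N (by omega) hNp q χ β I P K b vB p₀ F₁ F₂ hD hE.pq (fun i hi => by
      rw [Finset.mem_singleton] at hi
      rw [hi]
      exact hpar) (fun _ => σ / G) (fun i _ => hθ') (by
      rw [Finset.sum_singleton, ← hσd]
      have h1 := (abs_le.mp hr).1
      have h3 : σ - η * σ ≤ σ / G * (RR χ P I (K * m₀) (HP (K * m₀) b (vS s)) 1 N).re := by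
        calc σ - η * σ = σ / G * (G - η * G) := by field_simp
          _ ≤ _ := mul_le_mul_of_nonneg_left (by linarith) (by positivity)
      linarith) (by
      rw [Finset.sum_singleton, Finset.sum_singleton, ← hσd]
      have h1 := (abs_le.mp hj).2
      have h3 : σ / G * (σ / G) * (JJ χ P I (K * K) (HP K b b) 1 1 N).re ≤
          (σ / G) ^ 2 * M * (2 + η) := by
        calc σ / G * (σ / G) * (JJ χ P I (K * K) (HP K b b) 1 1 N).re ≤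
            σ / G * (σ / G) * (2 * M + η * M) :=
              mul_le_mul_of_nonneg_left (by linarith) (by positivity)
          _ = _ := by ring
      have h5 : (σ / G) ^ 2 * M * (2 + η) ≤ σ * (1 + η) * (2 + η) :=
        mul_le_mul_of_nonneg_right haM (by linarith)
      have h6 : σ * (1 + η) * (2 + η) ≤ 2 * σ + 4 * (η * σ) := by
        have h7 := mul_le_mul_of_nonneg_left hη1 (mul_nonneg hη0.le hσ0.le)
        linarith [show σ * (1 + η) * (2 + η) = 2 * σ + 3 * (η * σ) + η * σ * η by ring]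
      have h9 : (2 : ℝ) / 1 * σ = 2 * σ := by ring
      rw [h9]
      linarith)
  refine ⟨Aa q N * K ^ 2, xx χ {1} (fun _ => σ / G) N K b, vB, ρ, B₀, p₀, hv, hD.vB_supp,
    fun e => (hD.vB_le e).trans ?_, hD.p0, hD.p0_ge, hD.p0_le, hD.qN, fun la => ?_⟩
  · have : 0 ≤ σ * C := by positivity
    linarith
  · rw [mx_xx χ {1} _ hD.K1 hD.supp, Finset.sum_singleton, abs_mul, abs_mul,
      abs_of_pos (show 0 < σ / G by positivity)]
    have hte : 0 ≤ te χ AA z₀ A₁ la := (Real.exp_pos _).le.trans (te_two χ AA z₀ A₁ la).1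
    have h1 := hD.pt la
    rw [← hGd] at h1
    have hY : 0 ≤ |MX m₁ vB la| * te χ AA z₀ A₁ la * |th p₀ la| := by positivity
    calc σ / G * |U χ 1 N la| * |MX K b la| ≤ σ / G * |U χ 1 N la| *
          (C * G * (|MX m₁ vB la| * te χ AA z₀ A₁ la * |th p₀ la|)) :=
            mul_le_mul_of_nonneg_left h1 (by positivity)
      _ = (σ * C) * |U χ 1 N la| * (|MX m₁ vB la| * te χ AA z₀ A₁ la * |th p₀ la|) := by
          field_simp
      _ ≤ _ := by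
          refine mul_le_mul_of_nonneg_right (mul_le_mul_of_nonneg_right ?_ (abs_nonneg _)) hY
          linarith

end Pool.Agent.TEM
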