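import Pool.Agent.Lib_helper15.TEM.Minus
import Pool.Agent.Lib_helper15.TEM.Geo
import Pool.Agent.Lib_helper71.LSP3.ExF

/-! T12, part I: the product of the central value and of the twisted central value is small. -/

set_option autoImplicit false

namespace Pool.Agent.TEM

open Complex MeasureTheory Set Filter Topology
open Pool.Agent.LSP (tau MX sg1 wX QN KerL ExVec ExData ExZ)
open Pool.Agent.LEV (Um S2 IsNew co la Lh nr HAR_cheb nr_pos new_ne_zero_pr nat_of_harm new_fin)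
open Pool.Agent.LVB (IsST om AllNew)
open Pool.Agent.KSL (fid_om)
open Pool.Agent.LK (V KerC PQ)
open Pool.Agent.LE
open Pool.Agent.LM (cv Pz th)
open Pool.Agent.LX

/-- the conductor tends to infinity, with a fixed `κ₀` -/
theorem large_u : ∃ κ₀ : ℝ, 0 < κ₀ ∧ ∀ q₀ : ℕ, ∃ N₀ : ℕ, ∀ N : ℕ, N₀ ≤ N → ∀ (q : ℕ) [NeZero q]
    (χ : DirichletCharacter ℂ q) (β : ℝ), Ex κ₀ N χ β → q₀ ≤ q := by
  obtain ⟨c, κ₀, N₀, hc, hκ₀, h⟩ := x4s
  have hl : Tendsto (fun N : ℕ => Real.log (N : ℝ)) atTop atTop :=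
    Real.tendsto_log_atTop.comp tendsto_natCast_atTop_atTop
  refine ⟨κ₀, hκ₀, fun q₀ => ?_⟩
  obtain ⟨N₁, hN₁⟩ := Filter.eventually_atTop.mp
    (hl.eventually_ge_atTop (max 1 (κ₀ * (q₀ : ℝ) ^ 2 / c)))
  refine ⟨N₀ + N₁, fun N hN q _ χ β hE => ?_⟩
  obtain ⟨h1, -⟩ := h N (by omega) q χ β hE
  have h2 := hN₁ N (by omega)
  have h3 : 1 ≤ Real.log N := (le_max_left _ _).trans h2
  have h4 : κ₀ * (q₀ : ℝ) ^ 2 / c ≤ Real.log N := (le_max_right _ _).trans h2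
  by_contra hlt
  push Not at hlt
  have hq1 : (1 : ℝ) ≤ q := by exact_mod_cast Nat.one_le_iff_ne_zero.mpr (NeZero.ne q)
  have hq2 : (q : ℝ) < q₀ := by exact_mod_cast hlt
  have h5 : 1 - β < κ₀ / Real.log N := by have := hE.lt; linarith
  have h6 : c / (q : ℝ) ^ 2 < κ₀ / Real.log N := h1.trans_lt h5
  rw [div_lt_div_iff₀ (by positivity) (by linarith)] at h6
  rw [div_le_iff₀ hc] at h4
  have h7 : κ₀ * (q : ℝ) ^ 2 ≤ κ₀ * (q₀ : ℝ) ^ 2 := by gcongr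
  nlinarith

/-- the class `Bad` of forms has harmonic weight at most `τ` -/
def Small (N : ℕ) [Fact N.Prime] (τ : ℝ) (Bad : S2 N → Prop) : Prop :=
  ∀ (ι : Type) [Fintype ι] (f : ι → S2 N), AllNew f → ∀ u : Finset ι, (∀ i ∈ u, Bad (f i)) →
    ∑ i ∈ u, om (f i) ≤ τ

theorem Small.or {N : ℕ} [Fact N.Prime] {a b : ℝ} {P Q : S2 N → Prop} (hP : Small N a P)
    (hQ : Small N b Q) : Small N (a + b) (fun f => P f ∨ Q f) := by
  classical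
  intro ι _ f hf u hu
  have h1 := Finset.sum_filter_add_sum_filter_not u (fun i => P (f i)) (fun i => om (f i))
  have h2 := hP ι f hf (u.filter (fun i => P (f i))) (fun i hi => (Finset.mem_filter.mp hi).2)
  have h3 := hQ ι f hf (u.filter (fun i => ¬ P (f i))) (fun i hi => by
    rw [Finset.mem_filter] at hi
    exact (hu i hi.1).resolve_left hi.2)
  linarith

theorem Small.mono {N : ℕ} [Fact N.Prime] {a b : ℝ} {P Q : S2 N → Prop} (hP : Small N a P)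
    (hab : a ≤ b) (h : ∀ f, Q f → P f) : Small N b Q :=
  fun ι _ f hf u hu => (hP ι f hf u fun i hi => h _ (hu i hi)).trans hab

/-- small harmonic weight implies small number -/
theorem small_card : ∃ C : ℝ, 0 < C ∧ ∀ (N : ℕ) [Fact N.Prime] (Bad : S2 N → Prop) (τ : ℝ),
    Small N τ Bad → ({f : S2 N | IsNew f ∧ Bad f}.ncard : ℝ) ≤ C * N * Real.sqrt τ := by
  classical
  obtain ⟨C, hC, h⟩ := nat_of_harm
  obtain ⟨_, _, hnf⟩ := new_fin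
  refine ⟨C * Real.sqrt (4 * Real.pi), by have := Real.pi_pos; positivity,
    fun N _ Bad τ hB => ?_⟩
  have hF : {f : S2 N | IsNew f}.Finite := (hnf N).1
  have : Fintype {f : S2 N // IsNew f} := hF.fintype
  set f : {f : S2 N // IsNew f} → S2 N := fun i => i.1 with hf
  have hinj : Function.Injective f := Subtype.coe_injective
  have hn : ∀ i, IsNew (f i) := fun i => i.2
  have hall : AllNew f := ⟨hinj, fun g => ⟨fun hg => ⟨⟨g, hg⟩, rfl⟩, fun ⟨i, hi⟩ => hi ▸ i.2⟩⟩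
  set s : Finset {f : S2 N // IsNew f} := Finset.univ.filter (fun i => Bad (f i)) with hs
  have h1 := hB _ f hall s (fun i hi => (Finset.mem_filter.mp hi).2)
  have h2 := h N f hinj hn s
  have h3 : {f : S2 N | IsNew f ∧ Bad f} = f '' (s : Set {f : S2 N // IsNew f}) := by
    ext g
    constructor
    · rintro ⟨hg, hb⟩
      exact ⟨⟨g, hg⟩, by simp [hs, hf, hb], rfl⟩
    · rintro ⟨i, hi, rfl⟩
      exact ⟨i.2, (Finset.mem_filter.mp (Finset.mem_coe.mp hi)).2⟩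
  rw [h3, Set.ncard_image_of_injective _ hinj, Set.ncard_coe_finset]
  have h4 : ∑ i ∈ s, 1 / nr (f i) ≤ 4 * Real.pi * τ := by
    have h5 : ∑ i ∈ s, 1 / nr (f i) = 4 * Real.pi * ∑ i ∈ s, om (f i) := by
      rw [Finset.mul_sum]
      refine Finset.sum_congr rfl fun i _ => ?_
      unfold Pool.Agent.LVB.om
      have := nr_pos (new_ne_zero_pr (hn i))
      have := Real.pi_pos
      field_simp
    rw [h5]
    exact mul_le_mul_of_nonneg_left h1 (by have := Real.pi_pos; positivity)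
  calc (s.card : ℝ) ≤ C * N * Real.sqrt (∑ i ∈ s, 1 / nr (f i)) := h2
    _ ≤ C * N * Real.sqrt (4 * Real.pi * τ) :=
        mul_le_mul_of_nonneg_left (Real.sqrt_le_sqrt h4) (by positivity)
    _ = C * Real.sqrt (4 * Real.pi) * N * Real.sqrt τ := by
        rw [Real.sqrt_mul (by have := Real.pi_pos; positivity)]
        ring

/-- powers of the logarithm are large -/
theorem log_big (a : ℝ) {b : ℝ} (hb : 0 < b) : ∃ N₀ : ℕ, ∀ N : ℕ, N₀ ≤ N →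
    a ≤ Real.log N ^ b ∧ 1 ≤ Real.log N := by
  have hl : Tendsto (fun N : ℕ => Real.log (N : ℝ)) atTop atTop :=
    Real.tendsto_log_atTop.comp tendsto_natCast_atTop_atTop
  have h1 : Tendsto (fun N : ℕ => Real.log (N : ℝ) ^ b) atTop atTop := (tendsto_rpow_atTop hb).comp hl
  exact Filter.eventually_atTop.mp ((h1.eventually_ge_atTop a).and (hl.eventually_ge_atTop 1))

/-- the data of part I -/
theorem one_dat : ∃ (κ₀ C : ℝ) (A₁ AA z₀ : ℕ), 0 < κ₀ ∧ 0 < C ∧ ∀ δ : ℝ, 0 < δ → ∃ N₀ : ℕ,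
    ∀ N : ℕ, N₀ ≤ N → N.Prime → ∀ (q : ℕ) [NeZero q] (χ : DirichletCharacter ℂ q) (β : ℝ),
    Ex κ₀ N χ β → χ (-(N : ZMod q)) = 1 →
    ∃ (K : ℕ) (b : ℕ → ℝ) (p₀ : ℕ) (ρ : ℝ → ℝ) (B₀ : ℕ), 1 ≤ K ∧ SuppIn K b ∧
      p₀.Prime ∧ q ≤ p₀ ∧ (p₀ : ℝ) ^ 2 ≤ N ∧ (q : ℝ) ^ (2 * A₁) ≤ N ∧
      (∀ x : ℕ → ℝ, MX K b x = te χ AA z₀ A₁ x * th p₀ x) ∧
      KerL ((N : ℝ) ^ nu) ρ ∧ 1 + ((N : ℝ) ^ nu) ^ 2 ≤ (B₀ : ℝ) ∧ 1 ≤ Aa q N * K ^ 2 ∧
      Aa q N * K ^ 2 < N ∧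
      ∑ e ∈ Finset.Icc 1 (Aa q N * K ^ 2), xx χ {0} (fun _ => 1) N K b e * sg1 e / e = 0 ∧
      QN ρ ((N : ℝ) ^ nu) B₀ (Aa q N * K ^ 2) (xx χ {0} (fun _ => 1) N K b) N ≤
        (1 - β) ^ 2 * (C * Real.log N ^ δ) := by
  obtain ⟨A₁, κ₁, N₁, hA₁, hκ₁, hX2⟩ := x2s 1 one_pos
  obtain ⟨A, AA, z₀, C, c, q₀, hC, hc, hA, hmoll⟩ := mollS A₁ hA₁
  obtain ⟨κ₂, N₂, hκ₂, hgram⟩ := grams C c 1 hC hc one_pos
  obtain ⟨κ₃, hκ₃, hlarge⟩ := large_u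
  obtain ⟨c₄, κ₄, N₄, hc₄, hκ₄, hX4⟩ := x4s
  obtain ⟨κ₀, hκ₀, hk1, hk2, hk3, hk4, hk5⟩ : ∃ κ₀ : ℝ, 0 < κ₀ ∧ κ₀ ≤ κ₁ ∧ κ₀ ≤ κ₂ ∧ κ₀ ≤ κ₃ ∧
      κ₀ ≤ κ₄ ∧ κ₀ * (2 * A + 2 * A₁ + 10) ≤ dl / 2 := by
    refine ⟨min (min (min κ₁ κ₂) (min κ₃ κ₄)) (dl / 2 / (2 * A + 2 * A₁ + 10)), ?_, ?_, ?_, ?_,
      ?_, ?_⟩
    · have := dl_pos
      exact lt_min (lt_min (lt_min hκ₁ hκ₂) (lt_min hκ₃ hκ₄)) (by positivity)
    · exact (min_le_left _ _).trans ((min_le_left _ _).trans (min_le_left _ _))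
    · exact (min_le_left _ _).trans ((min_le_left _ _).trans (min_le_right _ _))
    · exact (min_le_left _ _).trans ((min_le_right _ _).trans (min_le_left _ _))
    · exact (min_le_left _ _).trans ((min_le_right _ _).trans (min_le_right _ _))
    · have h5 : (0 : ℝ) < 2 * (A : ℝ) + 2 * A₁ + 10 := by positivity
      calc min (min (min κ₁ κ₂) (min κ₃ κ₄)) (dl / 2 / (2 * A + 2 * A₁ + 10)) *
            (2 * A + 2 * A₁ + 10) ≤ dl / 2 / (2 * A + 2 * A₁ + 10) * (2 * A + 2 * A₁ + 10) :=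
            mul_le_mul_of_nonneg_right (min_le_right _ _) h5.le
        _ = dl / 2 := by field_simp
  refine ⟨κ₀, 112 * C + 1, A₁, AA, z₀, hκ₀, by positivity, fun δ hδ => ?_⟩
  obtain ⟨q₁, hq₁⟩ := pf_prod (δ := δ / 2) (by positivity)
  obtain ⟨N₃, hN₃⟩ := hlarge (q₀ + q₁ + 3)
  obtain ⟨N₅, hN₅⟩ := as_par
  obtain ⟨N₆, hN₆⟩ := asm_quad {0}
  obtain ⟨N₇, hN₇⟩ := as_grow 4 0 (a := nu) nu_pos
  obtain ⟨N₈, hN₈⟩ := as_grow 1 0 (a := dl) dl_pos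
  obtain ⟨N₉, hN₉⟩ := as_grow (1 / c₄ ^ 2) 0 (a := nu / 11 - dl) (by unfold nu dl; norm_num)
  obtain ⟨N₁₀, hN₁₀⟩ := log_big 1 hδ
  refine ⟨N₁ + N₂ + N₃ + N₄ + N₅ + N₆ + N₇ + N₈ + N₉ + N₁₀ + 3,
    fun N hN hNp q _ χ β hE hpar => ?_⟩
  have hN3 : 3 ≤ N := by omega
  have hN1' : 1 ≤ N := by omega
  have hN1 : (1 : ℝ) < N := by exact_mod_cast (by omega : 1 < N)
  have hN0 : (0 : ℝ) < N := by linarith
  have hq3 := hN₃ N (by omega) q χ β (hE.mono hk3 hN3)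
  have hX2' := hX2 N (by omega) q χ β (hE.mono hk1 hN3)
  obtain ⟨hd, hg⟩ := hX4 N (by omega) q χ β (hE.mono hk4 hN3)
  have hgr := hgram N (by omega) q χ β (hE.mono hk2 hN3)
  have hq1 : (1 : ℝ) ≤ q := by exact_mod_cast (by omega : 1 ≤ q)
  have hq1' : 1 ≤ q := by omega
  have hdl := dl_pos
  have hqN := hE.q_le
  have hqpow : ∀ k : ℕ, (k : ℝ) ≤ 2 * A + 2 * A₁ + 10 → (q : ℝ) ^ k ≤ (N : ℝ) ^ (dl / 2) := by
    intro k hk
    calc (q : ℝ) ^ k ≤ ((N : ℝ) ^ κ₀) ^ k := pow_le_pow_left₀ (by linarith) hqN k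
      _ = (N : ℝ) ^ (κ₀ * k) := by rw [← Real.rpow_natCast, ← Real.rpow_mul hN0.le]
      _ ≤ (N : ℝ) ^ (dl / 2) := by
          apply Real.rpow_le_rpow_of_exponent_le hN1.le
          refine le_trans ?_ hk5
          exact mul_le_mul_of_nonneg_left hk hκ₀.le
  have hhalf : (N : ℝ) ^ (dl / 2) ≤ (N : ℝ) ^ dl :=
    Real.rpow_le_rpow_of_exponent_le hN1.le (by linarith)
  have hhalf1 : (N : ℝ) ^ (dl / 2) ≤ N := by
    calc (N : ℝ) ^ (dl / 2) ≤ (N : ℝ) ^ (1 : ℝ) :=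
          Real.rpow_le_rpow_of_exponent_le hN1.le (by unfold dl; norm_num)
      _ = N := Real.rpow_one _
  have hqdl : (q : ℝ) ≤ (N : ℝ) ^ dl := by
    have := hqpow 1 (e_le A A₁).2.1
    rw [pow_one] at this
    exact this.trans hhalf
  obtain ⟨K, hK⟩ : ∃ K : ℕ, K = q ^ A := ⟨_, rfl⟩
  have hK1 : 1 ≤ K := by rw [hK]; exact Nat.one_le_pow _ _ (by omega)
  have hKle : (K : ℝ) ≤ (N : ℝ) ^ dl := by
    rw [hK]
    push_cast
    exact (hqpow A (e_le A A₁).1).trans hhalf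
  obtain ⟨I, hI⟩ : ∃ I : Finset ℕ, I = Pz (K * K) := ⟨_, rfl⟩
  have hIp : ∀ p ∈ I, p.Prime := by
    intro p hp
    rw [hI] at hp
    unfold Pz at hp
    exact (Finset.mem_filter.mp hp).2
  obtain ⟨P, hP⟩ := Pool.Agent.LVB.st_exists I hIp
  have hsub : Pz (q ^ A) ⊆ I := by
    intro p hp
    rw [← hK] at hp
    unfold Pz at hp
    rw [Finset.mem_filter, Finset.mem_Icc] at hp
    rw [hI]
    apply Pz_mem hp.2
    calc p ≤ K := hp.1.2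
      _ ≤ K * K := Nat.le_mul_of_pos_right _ hK1
  have hKI : ∀ p : ℕ, p.Prime → p ≤ K * K → p ∈ I := fun p hp h => by
    rw [hI]
    exact Pz_mem hp h
  have hg0 : 0 < gz χ β := hc₄.trans_le hg
  obtain ⟨b, p₀, F₂, hb, hbt, hbz, hF2, hp0, hp0q, hp0A, hpt, he2, hs2, hfin⟩ :=
    hmoll q χ hE.pq (by omega) I P hIp hP hsub
  rw [← hK] at hb hbz hpt he2 hs2
  have hf2 : MX (K * K) (HP K b b) = fun x => MX K b x ^ 2 := by
    funext x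
    rw [mx_hp_pr hb hb le_rfl le_rfl, sq]
  have hBs : SuppIn (K * K) (HP K b b) := hp_supp_pr hb hb
  obtain ⟨-, -, -, -, g5⟩ := (hgr I P hIp hP (K * K) (Nat.mul_pos hK1 hK1) hKI
    (HP K b b) F₂ hBs hF2).1 (by rw [hf2]; exact he2) (by rw [hf2]; exact hs2)
  have g5' := re_sub_le g5
  obtain ⟨hPar, hYA, hAN, hA1⟩ := hN₅ N (by omega) q hq1' hqdl
  have hT : (4 : ℝ) ≤ (N : ℝ) ^ nu := by simpa using hN₇ N (by omega)
  obtain ⟨ρ, hρ⟩ := Pool.Agent.LK.kerC_exists_pr hT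
  obtain ⟨B₀, hB₀⟩ := exists_nat_ge (1 + ((N : ℝ) ^ nu) ^ 2)
  obtain ⟨hz, hquad⟩ := hN₆ N (by omega) hNp q χ hE.pq hqdl (fun i hi => by
      rw [Finset.mem_singleton] at hi
      rw [hi, hpar]
      norm_num) I P hIp hP K hK1 hKle hKI b hb
    (fun k => (hbt k).trans ((hqpow A (e_le A A₁).1).trans hhalf)) hbz (fun _ => 1) (fun i _ => by
      rw [abs_one]
      simpa using hN₈ N (by omega)) ρ hρ B₀ hB₀
  have hE1 : 1 ≤ Aa q N * K ^ 2 := Nat.mul_pos hA1 (pow_pos hK1 2)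
  have hEle : ((Aa q N * K ^ 2 : ℕ) : ℝ) ≤ (N : ℝ) ^ (1 / 2 + nu / 20) * ((N : ℝ) ^ dl) ^ 2 := by
    push_cast
    gcongr
  have hElt : Aa q N * K ^ 2 < N := by
    have h1 : ((Aa q N * K ^ 2 : ℕ) : ℝ) < N := by
      calc ((Aa q N * K ^ 2 : ℕ) : ℝ) ≤ (N : ℝ) ^ (1 / 2 + nu / 20) * ((N : ℝ) ^ dl) ^ 2 := hEle
        _ ≤ (N : ℝ) ^ (9 / 10 : ℝ) := pow_dl hN1' 2 _ _ (by unfold nu dl; norm_num)
        _ < (N : ℝ) ^ (1 : ℝ) := Real.rpow_lt_rpow_of_exponent_lt hN1 (by norm_num)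
        _ = N := Real.rpow_one _
    exact_mod_cast h1
  refine ⟨K, b, p₀, ρ, B₀, hK1, hb, hp0, hp0q, ?_, (hqpow _ (e_le A A₁).2.2.2.2.1).trans hhalf1, hpt,
    hρ.toKerL, hB₀, hE1, hElt, hz, ?_⟩
  · calc (p₀ : ℝ) ^ 2 ≤ ((q : ℝ) ^ A) ^ 2 := by
          refine pow_le_pow_left₀ (Nat.cast_nonneg _) ?_ 2
          exact_mod_cast hp0A
      _ = (q : ℝ) ^ (2 * A) := by rw [← pow_mul, mul_comm]
      _ ≤ (N : ℝ) ^ (dl / 2) := hqpow _ (e_le A A₁).2.2.2.1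
      _ ≤ N := hhalf1
  -- the size
  obtain ⟨d, hdd⟩ : ∃ d : ℝ, d = 1 - β := ⟨_, rfl⟩
  have hd0 : 0 < d := by rw [hdd]; have := hE.lt1; linarith
  obtain ⟨L, hL⟩ : ∃ L : ℝ, L = Real.log N ^ δ := ⟨_, rfl⟩
  have hL1 : 1 ≤ L := by rw [hL]; exact (hN₁₀ N (by omega)).1
  have hlogN : 1 ≤ Real.log N := (hN₁₀ N (by omega)).2
  have hMm : Mm χ β F₂ ≤ 16 * C * L := by
    have hW0 : 0 ≤ WW χ (Pz (q ^ A₁)) := by
      unfold WW
      refine Finset.prod_nonneg fun p hp => ?_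
      have hp' : p.Prime := by
        unfold Pz at hp
        exact (Finset.mem_filter.mp hp).2
      have hp2 : (1 : ℝ) ≤ p := by exact_mod_cast hp'.one_lt.le
      have hpp : (0 : ℝ) < p := by linarith
      have h1 : 1 / (p : ℝ) ≤ 1 := (div_le_one hpp).mpr hp2
      have h2 : cv χ p / p ≤ 1 := by
        rw [div_le_one hpp]
        rcases (Pool.Agent.LM.cv_cases_pr hE.pq p).2 with h3 | h3 | h3 <;> rw [h3] <;> linarith
      exact mul_nonneg (by linarith) (by linarith)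
    have hgW : gz χ β * WW χ (Pz (q ^ A₁)) ≤ 2 := by
      have : gz χ β * WW χ (Pz (q ^ A₁)) ≤ 1 + 1 := hX2'
      linarith
    have hgW0 : 0 ≤ gz χ β * WW χ (Pz (q ^ A₁)) := mul_nonneg hg0.le hW0
    have hlogq : Real.log q ≤ Real.log N := by
      apply Real.log_le_log (by linarith)
      have := hqpow 1 (e_le A A₁).2.1
      rw [pow_one] at this
      exact this.trans hhalf1
    have hPi := hq₁ q (by omega)
    have hPi0 : 0 ≤ ∏ p ∈ q.primeFactors, (1 + 1 / (p : ℝ)) :=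
      Finset.prod_nonneg fun p _ => by positivity
    have hPi2 : (∏ p ∈ q.primeFactors, (1 + 1 / (p : ℝ))) ^ 2 ≤ L := by
      have hlq0 : 0 ≤ Real.log q := Real.log_nonneg hq1
      calc (∏ p ∈ q.primeFactors, (1 + 1 / (p : ℝ))) ^ 2 ≤ (Real.log q ^ (δ / 2)) ^ 2 :=
            pow_le_pow_left₀ hPi0 hPi 2
        _ ≤ (Real.log N ^ (δ / 2)) ^ 2 := by
            refine pow_le_pow_left₀ (by positivity) ?_ 2
            exact Real.rpow_le_rpow hlq0 hlogq (by positivity)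
        _ = L := by
            rw [hL, ← Real.rpow_natCast, ← Real.rpow_mul (by linarith)]
            congr 1
            push_cast
            ring
    have hg4 : 0 ≤ gz χ β ^ 4 := by positivity
    calc Mm χ β F₂ = gz χ β ^ 4 * (((q.totient : ℝ) / q / ‖zq q 2‖) * F₂) := by unfold Mm; ring
      _ ≤ gz χ β ^ 4 * (C * WW χ (Pz (q ^ A₁)) ^ 4 *
          (∏ p ∈ q.primeFactors, (1 + 1 / (p : ℝ))) ^ 2) := mul_le_mul_of_nonneg_left hfin hg4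
      _ = C * (gz χ β * WW χ (Pz (q ^ A₁))) ^ 4 *
          (∏ p ∈ q.primeFactors, (1 + 1 / (p : ℝ))) ^ 2 := by ring
      _ ≤ C * 2 ^ 4 * L := by gcongr
      _ = 16 * C * L := by ring
  have hsmall : (N : ℝ) ^ (-(nu / 11)) ≤ d ^ 2 := by
    have h1 : 1 / c₄ ^ 2 ≤ (N : ℝ) ^ (nu / 11 - dl) := by simpa using hN₉ N (by omega)
    have h2 : c₄ * (N : ℝ) ^ (-(dl / 2)) ≤ d := by
      rw [hdd]
      refine le_trans ?_ hd
      have h5 := hqpow 2 (e_le A A₁).2.2.1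
      have hq2 : (0 : ℝ) < (q : ℝ) ^ 2 := by positivity
      rw [Real.rpow_neg hN0.le, le_div_iff₀ hq2]
      have h6 : 0 < (N : ℝ) ^ (dl / 2) := by positivity
      have h7 : ((N : ℝ) ^ (dl / 2))⁻¹ * (q : ℝ) ^ 2 ≤ 1 := by
        rw [inv_mul_le_iff₀ h6, mul_one]
        exact h5
      calc c₄ * ((N : ℝ) ^ (dl / 2))⁻¹ * (q : ℝ) ^ 2 =
          c₄ * (((N : ℝ) ^ (dl / 2))⁻¹ * (q : ℝ) ^ 2) := by ring
        _ ≤ c₄ * 1 := mul_le_mul_of_nonneg_left h7 hc₄.le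
        _ = c₄ := mul_one _
    have h3 : c₄ ^ 2 * (N : ℝ) ^ (-dl) ≤ d ^ 2 := by
      calc c₄ ^ 2 * (N : ℝ) ^ (-dl) = (c₄ * (N : ℝ) ^ (-(dl / 2))) ^ 2 := by
            rw [mul_pow, ← Real.rpow_natCast ((N : ℝ) ^ (-(dl / 2))) 2, ← Real.rpow_mul hN0.le]
            congr 2
            push_cast
            ring
        _ ≤ d ^ 2 := pow_le_pow_left₀ (by positivity) h2 2
    refine le_trans ?_ h3
    have h4 : (N : ℝ) ^ (-dl) = (N : ℝ) ^ (-(nu / 11)) * (N : ℝ) ^ (nu / 11 - dl) := by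
      rw [← Real.rpow_add hN0]
      congr 1
      ring
    rw [h4]
    have h5 : 0 < (N : ℝ) ^ (-(nu / 11)) := by positivity
    rw [div_le_iff₀ (by positivity)] at h1
    calc (N : ℝ) ^ (-(nu / 11)) = (N : ℝ) ^ (-(nu / 11)) * 1 := (mul_one _).symm
      _ ≤ (N : ℝ) ^ (-(nu / 11)) * ((N : ℝ) ^ (nu / 11 - dl) * c₄ ^ 2) :=
          mul_le_mul_of_nonneg_left h1 h5.le
      _ = _ := by ring
  rw [← hdd, ← hL]
  rw [← hdd] at g5'
  have hq' := (abs_le.mp hquad).2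
  rw [Finset.sum_singleton, Finset.sum_singleton, one_mul, one_mul] at hq'
  have hj := (abs_le.mp g5').2
  have hd2 : 0 ≤ d ^ 2 := sq_nonneg d
  have h8 : d ^ 2 * Mm χ β F₂ ≤ d ^ 2 * (16 * C * L) := mul_le_mul_of_nonneg_left hMm hd2
  have h9 : d ^ 2 * 1 ≤ d ^ 2 * L := mul_le_mul_of_nonneg_left hL1 hd2
  have h10 : d ^ 2 * ((112 * C + 1) * L) = 7 * (d ^ 2 * (16 * C * L)) + d ^ 2 * L := by ring
  rw [h10]
  linarith

end Pool.Agent.TEM
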