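import Pool.Agent.Lib_helper15.TEM.One

/-! T12, part I: conclusion. -/

set_option autoImplicit false

namespace Pool.Agent.TEM

open Complex MeasureTheory Set Filter Topology
open Pool.Agent.LSP (tau MX sg1 wX QN KerL ExVec ExData ExZ)
open Pool.Agent.LEV (Um S2 IsNew co la Lh nr HAR_cheb nr_pos new_ne_zero_pr nat_of_harm new_fin)
open Pool.Agent.LVB (IsST om AllNew)
open Pool.Agent.KSL (fid_om)
open Pool.Agent.LK (V KerC PQ)
open Pool.Agent.LE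
open Pool.Agent.LM (cv Pz th)
open Pool.Agent.LX

/-- **part I**: outside of few forms, `L(1/2, f) L(1/2, f × χ)` is at most `(1 - β) (log N)^δ` -/
theorem part_one : ∃ κ : ℝ, 0 < κ ∧ ∀ ε δ : ℝ, 0 < ε → 0 < δ → ∃ N₀ : ℕ, ∀ (N : ℕ)
    [Fact N.Prime], N₀ ≤ N → ∀ (q : ℕ) [NeZero q] (χ : DirichletCharacter ℂ q) (β : ℝ),
    Ex κ N χ β → χ (-(N : ZMod q)) = 1 →
    ({f : S2 N | (IsNew f ∧ co f N = 1) ∧
      (1 - β) * Real.log N ^ δ < ‖Lh f‖ * |U χ 0 N (la f)|}.ncard : ℝ) ≤ ε * N := by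
  classical
  obtain ⟨κ₀, C, A₁, AA, z₀, hκ₀, hC, hdat⟩ := one_dat
  obtain ⟨κ₃, hκ₃, hlarge⟩ := large_u
  obtain ⟨Cn, hCn, hcard⟩ := small_card
  refine ⟨min κ₀ κ₃, lt_min hκ₀ hκ₃, fun ε δ hε hδ => ?_⟩
  obtain ⟨τ, hτ, hτε⟩ : ∃ τ : ℝ, 0 < τ ∧ Cn * Real.sqrt τ ≤ ε := by
    refine ⟨(ε / Cn) ^ 2, by positivity, le_of_eq ?_⟩
    rw [Real.sqrt_sq (by positivity)]
    field_simp
  obtain ⟨N₁, hN₁⟩ := hdat (δ / 4) (by positivity)
  obtain ⟨N₂, hN₂⟩ := typ_te (ε := τ / 4) (δ := δ / 4) (by positivity) (by positivity) z₀ A₁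
  obtain ⟨p₁, hp₁⟩ := typ_th (ε := τ / 4) (by positivity)
  obtain ⟨N₃, hN₃⟩ := hlarge (p₁ + 3)
  obtain ⟨N₄, hN₄⟩ := log_big (4 * C / (τ / 4)) (b := 3 / 4 * δ) (by positivity)
  refine ⟨N₁ + N₂ + N₃ + N₄ + p₁ + 3, fun N _ hN q _ χ β hE hpar => ?_⟩
  have hNp : N.Prime := Fact.out
  have hN3 : 3 ≤ N := by omega
  have hq := hN₃ N (by omega) q χ β (hE.mono (min_le_right _ _) hN3)
  obtain ⟨K, b, p₀, ρ, B₀, hK1, hb, hp0, hp0q, hp0N, hqN, hpt, hker, hB₀, hE1, hElt, hz, hQN⟩ :=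
    hN₁ N (by omega) hNp q χ β (hE.mono (min_le_left _ _) hN3) hpar
  obtain ⟨hL0, hL1⟩ := hN₄ N (by omega)
  obtain ⟨d, hdd⟩ : ∃ d : ℝ, d = 1 - β := ⟨_, rfl⟩
  have hd0 : 0 < d := by rw [hdd]; have := hE.lt1; linarith
  rw [← hdd] at hQN ⊢
  obtain ⟨L, hL⟩ : ∃ L : ℝ, L = Real.log N := ⟨_, rfl⟩
  rw [← hL] at hL0 hL1 hQN ⊢
  have hLp : 0 < L := by linarith
  -- the class of bad forms
  have h1 : Small N (τ / 4) (fun f => δ / 4 * Real.log (Real.log N) < sx χ z₀ A₁ (la f)) :=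
    fun ι _ f hf u hu => hN₂ N (by omega) q χ hE.pq hqN f hf u hu
  have h2 : Small N (τ / 4) (fun f => ¬ (1 / 2 ≤ th p₀ (la f) ∧ th p₀ (la f) ≤ 2)) :=
    fun ι _ f hf u hu => hp₁ N (by omega) p₀ hp0 (by omega) hp0N f hf u hu
  have h3 : Small N (τ / 4) (fun f => d ^ 2 * (L ^ (3 / 2 * δ) / 4) * L ^ (0 : ℝ) ≤
      (‖Lh f‖ * |MX (Aa q N * K ^ 2) (xx χ {0} (fun _ => 1) N K b) (la f)|) ^ 2) := by
    intro ι _ f hf u hu
    have hi : Function.Injective f := hf.1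
    have hn : ∀ i, IsNew (f i) := fun i => (hf.2 (f i)).mpr ⟨i, rfl⟩
    have hom : ∀ i, 0 ≤ om (f i) := fun i => (fid_om (hn i)).2.1.le
    have hgeo := Pool.Agent.TEMG.geo_norm hker hB₀ N (Aa q N * K ^ 2) hE1 hElt
      (xx χ {0} (fun _ => 1) N K b) (xx_supp χ {0} _ N hK1 hb) hz f hi hn
    have hch := HAR_cheb (fun i => om (f i)) (fun i => (‖Lh (f i)‖ *
      |MX (Aa q N * K ^ 2) (xx χ {0} (fun _ => 1) N K b) (la (f i))|) ^ 2) hom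
      (fun i => sq_nonneg _) (t := d ^ 2 * (L ^ (3 / 2 * δ) / 4) * L ^ (0 : ℝ))
      (by positivity) (hgeo.trans hQN) u hu
    refine hch.trans ?_
    rw [Real.rpow_zero, mul_one, mul_div_mul_left _ _ (by positivity), div_le_iff₀ (by positivity)]
    have e1 : L ^ (3 / 2 * δ) = L ^ (δ / 4) * (L ^ (3 / 4 * δ) * L ^ (δ / 2)) := by
      rw [← Real.rpow_add hLp, ← Real.rpow_add hLp]
      congr 1
      ring
    have e2 : 1 ≤ L ^ (δ / 2) := Real.one_le_rpow hL1 (by positivity)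
    rw [div_le_iff₀ (by positivity)] at hL0
    rw [e1]
    have e3 : 0 < L ^ (δ / 4) := by positivity
    have e4 : 0 < L ^ (3 / 4 * δ) := by positivity
    calc C * L ^ (δ / 4) = L ^ (δ / 4) * (4 * C) / 4 := by ring
      _ ≤ L ^ (δ / 4) * (L ^ (3 / 4 * δ) * (τ / 4)) / 4 := by gcongr
      _ = τ / 4 * (L ^ (δ / 4) * (L ^ (3 / 4 * δ) * 1) / 4) := by ring
      _ ≤ τ / 4 * (L ^ (δ / 4) * (L ^ (3 / 4 * δ) * L ^ (δ / 2)) / 4) := by gcongr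
  have hall := (h1.or h2).or h3
  have hsm : Small N τ (fun f => d * L ^ δ < ‖Lh f‖ * |U χ 0 N (la f)|) := by
    refine hall.mono (by linarith) fun f hf => ?_
    by_contra hcon
    push Not at hcon
    obtain ⟨⟨c1, c2, -⟩, c3⟩ := hcon
    refine absurd c3 (not_lt.mpr ?_)
    rw [mx_xx χ {0} _ hK1 hb, Finset.sum_singleton, one_mul, hpt]
    have hte := (te_two χ AA z₀ A₁ (la f)).1
    have e1 : L ^ (-(δ / 4)) ≤ te χ AA z₀ A₁ (la f) := by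
      refine le_trans ?_ hte
      rw [Real.rpow_def_of_pos hLp]
      apply Real.exp_le_exp.mpr
      rw [← hL] at c1
      linarith
    have hte0 : 0 < te χ AA z₀ A₁ (la f) := (Real.exp_pos _).trans_le hte
    have e2 : L ^ (-(δ / 4)) / 2 ≤ |te χ AA z₀ A₁ (la f) * th p₀ (la f)| := by
      rw [abs_mul, abs_of_pos hte0, abs_of_nonneg (by linarith : 0 ≤ th p₀ (la f))]
      calc L ^ (-(δ / 4)) / 2 = L ^ (-(δ / 4)) * (1 / 2) := by ring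
        _ ≤ te χ AA z₀ A₁ (la f) * th p₀ (la f) :=
            mul_le_mul e1 c2 (by norm_num) hte0.le
    rw [abs_mul]
    have e5 : d * (L ^ (3 / 4 * δ) / 2) ≤
        ‖Lh f‖ * (|U χ 0 N (la f)| * |te χ AA z₀ A₁ (la f) * th p₀ (la f)|) := by
      have e6 : L ^ (3 / 4 * δ) = L ^ δ * L ^ (-(δ / 4)) := by
        rw [← Real.rpow_add hLp]
        congr 1
        ring
      calc d * (L ^ (3 / 4 * δ) / 2) = (d * L ^ δ) * (L ^ (-(δ / 4)) / 2) := by rw [e6]; ring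
        _ ≤ (‖Lh f‖ * |U χ 0 N (la f)|) * |te χ AA z₀ A₁ (la f) * th p₀ (la f)| :=
            mul_le_mul hf.le e2 (by positivity) (by positivity)
        _ = _ := by ring
    have e7 := pow_le_pow_left₀ (by positivity) e5 2
    refine le_trans (le_of_eq ?_) e7
    rw [Real.rpow_zero, mul_one]
    have e8 : L ^ (3 / 2 * δ) = (L ^ (3 / 4 * δ)) ^ 2 := by
      rw [← Real.rpow_natCast, ← Real.rpow_mul hLp.le]
      congr 1
      push_cast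
      ring
    rw [e8]
    ring
  have hc := hcard N _ τ hsm
  obtain ⟨_, _, hnf⟩ := new_fin
  have hF : {f : S2 N | IsNew f}.Finite := (hnf N).1
  have hsub : {f : S2 N | (IsNew f ∧ co f N = 1) ∧ d * L ^ δ < ‖Lh f‖ * |U χ 0 N (la f)|} ⊆
      {f : S2 N | IsNew f ∧ d * L ^ δ < ‖Lh f‖ * |U χ 0 N (la f)|} := fun f hf => ⟨hf.1.1, hf.2⟩
  have hfin : {f : S2 N | IsNew f ∧ d * L ^ δ < ‖Lh f‖ * |U χ 0 N (la f)|}.Finite :=
    hF.subset fun f hf => hf.1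
  have h4 : ({f : S2 N | (IsNew f ∧ co f N = 1) ∧
      d * L ^ δ < ‖Lh f‖ * |U χ 0 N (la f)|}.ncard : ℝ) ≤
      ({f : S2 N | IsNew f ∧ d * L ^ δ < ‖Lh f‖ * |U χ 0 N (la f)|}.ncard : ℝ) := by
    exact_mod_cast Set.ncard_le_ncard hsub hfin
  refine h4.trans (hc.trans ?_)
  calc Cn * N * Real.sqrt τ = (Cn * Real.sqrt τ) * N := by ring
    _ ≤ ε * N := mul_le_mul_of_nonneg_right hτε (Nat.cast_nonneg _)

end Pool.Agent.TEM
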