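import Pool.Agent.Lib_helper15.TEM.B.XL
import Pool.Agent.Lib_helper15.TEM.B.BK
import Pool.Agent.Lib_helper71.LSP3.AS9

/-! T12, part IV, sharp form: sums over primes and the exceptional zero. -/

set_option autoImplicit false

namespace Pool.Agent.TEM

open Complex MeasureTheory Set Filter Topology
open Pool.Agent.LVB (IsST HB JJ Bk Kk)
open Pool.Agent.LK (PQ)
open Pool.Agent.LE
open Pool.Agent.LM (cv Pz)
open Pool.Agent.LX (Ex gz gz_eq x2s)

/-- lower bound for `g₀ ∏_{p ≤ z} (1 - 1/p) (1 - χ(p)/p)` for all `z ≥ q` with `(1 - β) log z` bounded -/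
theorem xlow_z {c : ℝ} (hc : 0 < c) (hc1 : c ≤ 1) : ∃ c' : ℝ, 0 < c' ∧
    ∀ (q : ℕ) [NeZero q] (χ : DirichletCharacter ℂ q), PQ χ → 3 ≤ q → ∀ (β : ℝ) (g : ℂ → ℂ)
    (g₀ : ℝ), β < 1 → ∀ z : ℕ, q ≤ z → (1 - β) * Real.log z ≤ c →
    Pool.Agent.EXC.GFun χ β c g g₀ → c' ≤ g₀ * WW χ (Pz z) := by
  obtain ⟨C, hC⟩ := LM.sum_log_le_pr
  refine ⟨Real.exp (-(8 * (1 + |C|))) / 8, by positivity, ?_⟩
  intro q _ χ hχ hq β g g₀ hβ z hqz hβq hG
  have hq3 : (3 : ℝ) ≤ q := by exact_mod_cast hq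
  have hqz' : (q : ℝ) ≤ z := by exact_mod_cast hqz
  have hlogq : 1 < Real.log q := by
    rw [Real.lt_log_iff_exp_lt (by linarith)]
    exact lt_of_lt_of_le Real.exp_one_lt_three hq3
  have hlqz : Real.log q ≤ Real.log z := Real.log_le_log (by linarith) hqz'
  have hlog : 1 < Real.log z := by linarith
  have hlog0 : 0 < Real.log z := by linarith
  set w : ℝ := c / Real.log z with hwdef
  have hw : 0 < w := div_pos hc hlog0
  have hwl : w * Real.log z = c := div_mul_cancel₀ c hlog0.ne'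
  have hw1 : w ≤ 1 := by
    rw [hwdef, div_le_one hlog0]
    linarith
  have hβw : 1 - β ≤ w := by
    rw [hwdef, le_div_iff₀ hlog0]
    exact hβq
  have hwq : w ≤ c / Real.log q := by
    rw [hwdef]
    exact div_le_div_of_nonneg_left hc.le (by linarith) hlqz
  -- the upper bound
  obtain ⟨ζ₀, hz1, hz2, hz3⟩ := EXC.xd_zeta hw
  have h1 : ‖riemannZeta ((1 + w : ℝ) : ℂ)‖ ≤ 2 / w := by
    rw [hz1, Complex.norm_real, Real.norm_eq_abs, abs_of_nonneg (le_trans (by positivity) hz2)]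
    refine hz3.trans ?_
    exact div_le_div_of_nonneg_right (by linarith) hw.le
  have h2 : ‖DirichletCharacter.LFunction χ ((1 + w : ℝ) : ℂ)‖ ≤ 4 * w * g₀ := by
    have h3 : ((1 + w : ℝ) : ℂ) = 1 + (w : ℂ) := by push_cast; rfl
    rw [h3, hG.fac, norm_mul]
    have h4 : ‖(w : ℂ) + ((1 - β : ℝ) : ℂ)‖ ≤ 2 * w := by
      rw [← Complex.ofReal_add, Complex.norm_real, Real.norm_eq_abs, abs_of_nonneg (by linarith)]
      linarith
    have h5 : ‖g (w : ℂ)‖ ≤ 2 * g₀ := by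
      refine hG.bdd _ ?_
      rw [Complex.norm_real, Real.norm_eq_abs, abs_of_pos hw]
      exact hwq
    have h6 : 0 ≤ g₀ := by linarith [hG.ge]
    calc ‖(w : ℂ) + ((1 - β : ℝ) : ℂ)‖ * ‖g (w : ℂ)‖ ≤ (2 * w) * (2 * g₀) :=
          mul_le_mul h4 h5 (norm_nonneg _) (by positivity)
      _ = 4 * w * g₀ := by ring
  have h3 : ‖riemannZeta ((1 + w : ℝ) : ℂ)‖ *
      ‖DirichletCharacter.LFunction χ ((1 + w : ℝ) : ℂ)‖ ≤ 8 * g₀ := by
    calc _ ≤ (2 / w) * (4 * w * g₀) := mul_le_mul h1 h2 (norm_nonneg _) (by positivity)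
      _ = 8 * g₀ := by
        field_simp
        ring
  have h4 := (xl_euler hχ hw z).trans h3
  have h5 := xl_ww hχ hw z
  have hpos : 0 < ∏ p ∈ Pz z, xl_a χ w p :=
    Finset.prod_pos fun p hp => (xl_a_facts hχ hw (Finset.mem_filter.1 hp).2).1
  -- the sum
  have h6 : w * ∑ p ∈ Pz z, Real.log p / p ≤ 1 + |C| := by
    have h8 := hC z (by omega)
    have h10 := mul_le_mul_of_nonneg_left h8 hw.le
    have h11 : w * (Real.log z + C) = c + w * C := by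
      rw [mul_add, hwl]
    rw [h11] at h10
    have h13 : w * C ≤ |C| := by
      calc w * C ≤ w * |C| := mul_le_mul_of_nonneg_left (le_abs_self C) hw.le
        _ ≤ 1 * |C| := mul_le_mul_of_nonneg_right hw1 (abs_nonneg C)
        _ = |C| := one_mul _
    linarith
  have h7 : Real.exp (-(8 * (1 + |C|))) ≤
      Real.exp (-(8 * w * ∑ p ∈ Pz z, Real.log p / p)) := by
    refine Real.exp_le_exp.2 ?_
    have h8 : 8 * w * ∑ p ∈ Pz z, Real.log p / p =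
        8 * (w * ∑ p ∈ Pz z, Real.log p / p) := by ring
    rw [h8]
    linarith
  have h8 : (∏ p ∈ Pz z, xl_a χ w p) * Real.exp (-(8 * (1 + |C|))) ≤
      WW χ (Pz z) := (mul_le_mul_of_nonneg_left h7 hpos.le).trans h5
  have h9 : (1 : ℝ) ≤ 8 * g₀ * ∏ p ∈ Pz z, xl_a χ w p := by
    have h10 := mul_le_mul_of_nonneg_right h4 hpos.le
    rwa [inv_mul_cancel₀ hpos.ne'] at h10
  have hg0 : 0 ≤ g₀ := by linarith [hG.ge]
  have h10 : Real.exp (-(8 * (1 + |C|))) ≤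
      8 * g₀ * (∏ p ∈ Pz z, xl_a χ w p) * Real.exp (-(8 * (1 + |C|))) :=
    le_mul_of_one_le_left (Real.exp_pos _).le h9
  have h11 : 8 * g₀ * (∏ p ∈ Pz z, xl_a χ w p) * Real.exp (-(8 * (1 + |C|))) ≤
      8 * g₀ * WW χ (Pz z) := by
    rw [mul_assoc (8 * g₀)]
    exact mul_le_mul_of_nonneg_left h8 (by positivity)
  have h12 := h10.trans h11
  rw [div_le_iff₀ (by norm_num : (0 : ℝ) < 8)]
  linarith

/-- the sum over the primes with `χ(p) ≠ -1` -/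
noncomputable def HX {q : ℕ} [NeZero q] (χ : DirichletCharacter ℂ q) (S : Finset ℕ) : ℝ :=
  ∑ p ∈ S with cv χ p ≠ -1, 1 / (p : ℝ)

theorem pz_mem {z p : ℕ} : p ∈ Pz z ↔ p.Prime ∧ p ≤ z := by
  unfold Pz
  rw [Finset.mem_filter, Finset.mem_Icc]
  exact ⟨fun h => ⟨h.2, h.1.2⟩, fun h => ⟨⟨h.1.one_lt.le, h.2⟩, h.1⟩⟩

theorem hx_mono {q : ℕ} [NeZero q] (χ : DirichletCharacter ℂ q) {S T : Finset ℕ} (h : S ⊆ T) :
    HX χ S ≤ HX χ T := by
  unfold HX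
  refine Finset.sum_le_sum_of_subset_of_nonneg (Finset.filter_subset_filter _ h) fun p _ _ => ?_
  positivity

theorem hx_le {q : ℕ} [NeZero q] (χ : DirichletCharacter ℂ q) (S : Finset ℕ) : HX χ S ≤ HB S := by
  unfold HX HB
  exact Finset.sum_le_sum_of_subset_of_nonneg (Finset.filter_subset _ _) fun p _ _ => by positivity

theorem hx_union {q : ℕ} [NeZero q] (χ : DirichletCharacter ℂ q) (S T : Finset ℕ) :
    HX χ (S ∪ T) ≤ HX χ S + HX χ T := by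
  unfold HX
  rw [Finset.filter_union, ← Finset.sum_union_inter]
  have : 0 ≤ ∑ p ∈ S.filter (fun p => cv χ p ≠ -1) ∩ T.filter (fun p => cv χ p ≠ -1),
    1 / (p : ℝ) := Finset.sum_nonneg fun p _ => by positivity
  linarith

/-- Mertens -/
theorem hb_diff : ∃ C : ℝ, 0 ≤ C ∧ ∀ a b : ℕ, 2 ≤ a → a ≤ b →
    HB (Pz b \ Pz a) ≤ Real.log (Real.log b / Real.log a) + C := by
  obtain ⟨C, hC⟩ := Pool.Agent.LEV.mertens_two_pr
  have hC0 : 0 ≤ C := (abs_nonneg _).trans (hC 2 le_rfl)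
  refine ⟨2 * C, by positivity, fun a b ha hab => ?_⟩
  have ha2 : (2 : ℝ) ≤ a := by exact_mod_cast ha
  have hab' : (a : ℝ) ≤ b := by exact_mod_cast hab
  have h1 := (abs_le.mp (hC a ha2)).1
  have h2 := (abs_le.mp (hC b (by linarith))).2
  rw [Nat.floor_natCast] at h1 h2
  have hsub : Pz a ⊆ Pz b := fun p hp => by
    rw [pz_mem] at hp ⊢
    exact ⟨hp.1, hp.2.trans hab⟩
  have h3 : HB (Pz b \ Pz a) = HB (Pz b) - HB (Pz a) := by
    unfold HB
    rw [← Finset.sum_sdiff hsub]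
    ring
  have h4 : HB (Pz b) = ∑ p ∈ (Finset.Icc 1 b).filter Nat.Prime, 1 / (p : ℝ) := rfl
  have h5 : HB (Pz a) = ∑ p ∈ (Finset.Icc 1 a).filter Nat.Prime, 1 / (p : ℝ) := rfl
  have hla : 0 < Real.log a := Real.log_pos (by linarith)
  have hlb : 0 < Real.log b := Real.log_pos (by linarith)
  rw [h3, h4, h5, Real.log_div hlb.ne' hla.ne']
  linarith

/-- **the exceptional zero**: few primes with `χ(p) = 1` between `q` and `N` -/
theorem big_sum : ∃ (κ₀ C : ℝ) (N₀ : ℕ), 0 < κ₀ ∧ 0 ≤ C ∧ ∀ N : ℕ, N₀ ≤ N →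
    ∀ (q : ℕ) [NeZero q] (χ : DirichletCharacter ℂ q) (β : ℝ), Ex κ₀ N χ β →
      HX χ (Pz N \ Pz q) ≤ C := by
  obtain ⟨c, hc, hc1, hp⟩ := Pool.Agent.EXC.xpack_pr
  obtain ⟨c', hc', hlow⟩ := xlow_z hc hc1
  obtain ⟨A, κ₁, N₁, hA, hκ₁, hX2⟩ := x2s 1 one_pos
  obtain ⟨C, hC, hdiff⟩ := hb_diff
  refine ⟨min (min κ₁ c) (min 1 (1 / A)), Real.log A + C + Real.log (2 / c') + |Real.log (2 / c')|,
    N₁ + 3, ?_, ?_, ?_⟩
  · have : (0 : ℝ) < A := by exact_mod_cast hA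
    positivity
  · have h1 : 0 ≤ Real.log A := Real.log_natCast_nonneg A
    have h2 := neg_abs_le (Real.log (2 / c'))
    linarith
  intro N hN q _ χ β hE
  have hN3 : 3 ≤ N := by omega
  have hN1 : (1 : ℝ) < N := by exact_mod_cast (by omega : 1 < N)
  have hN0 : (0 : ℝ) < N := by linarith
  have hA0 : (0 : ℝ) < A := by exact_mod_cast hA
  obtain ⟨h0, h1, h2⟩ := Pool.Agent.LX.Ex.small
    ((min_le_right _ _).trans (min_le_left _ _)) hN3 hE
  have hkc : min (min κ₁ c) (min 1 (1 / (A : ℝ))) ≤ c := (min_le_left _ _).trans (min_le_right _ _)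
  obtain ⟨-, g, g₀, hg⟩ := hp q χ hE.pq β hE.zero (h2.trans hkc)
  have hq3 := Pool.Agent.GA.three_le hE.pq.ne
  have hq1 : (1 : ℝ) ≤ q := by exact_mod_cast (by omega : 1 ≤ q)
  have hqA : q ^ A ≤ N := by
    have h3 : ((q ^ A : ℕ) : ℝ) ≤ N := by
      push_cast
      calc (q : ℝ) ^ A ≤ ((N : ℝ) ^ (1 / (A : ℝ))) ^ A := by
            refine pow_le_pow_left₀ (by linarith) (hE.q_le.trans ?_) A
            exact Real.rpow_le_rpow_of_exponent_le hN1.le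
              ((min_le_right _ _).trans (min_le_right _ _))
        _ = N := by
            rw [← Real.rpow_natCast, ← Real.rpow_mul hN0.le, one_div, inv_mul_cancel₀ hA0.ne',
              Real.rpow_one]
    exact_mod_cast h3
  have hqqA : q ≤ q ^ A := Nat.le_self_pow (by omega) q
  have hlo := hlow q χ hE.pq hq3 β g g₀ hE.lt1 N (hqqA.trans hqA) (h1.trans hkc) hg
  have hup : gz χ β * WW χ (Pz (q ^ A)) ≤ 1 + 1 := hX2 N (by omega) q χ β
    (hE.mono ((min_le_left _ _).trans (min_le_left _ _)) hN3)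
  rw [gz_eq hg hE.lt1] at hup
  have hg0 : 0 < g₀ := by linarith [hg.ge]
  -- the second range
  have hsub : Pz (q ^ A) ⊆ Pz N := fun p hp => by
    rw [pz_mem] at hp ⊢
    exact ⟨hp.1, hp.2.trans hqA⟩
  have hfac : ∀ p ∈ Pz N \ Pz (q ^ A), 0 ≤ (1 - 1 / (p : ℝ)) * (1 - cv χ p / p) ∧
      (1 - 1 / (p : ℝ)) * (1 - cv χ p / p) ≤ (if cv χ p ≠ -1 then Real.exp (-(1 / (p : ℝ))) else 1) := by
    intro p hp
    rw [Finset.mem_sdiff, pz_mem] at hp
    have hp2 : (2 : ℝ) ≤ p := by exact_mod_cast hp.1.1.two_le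
    obtain ⟨y, hy⟩ : ∃ y : ℝ, y = 1 / (p : ℝ) := ⟨_, rfl⟩
    have hy0 : 0 < y := by rw [hy]; positivity
    have hy1 : y ≤ 1 / 2 := by
      rw [hy]
      exact one_div_le_one_div_of_le (by norm_num) hp2
    have he : 1 - y ≤ Real.exp (-y) := by have := Real.add_one_le_exp (-y); linarith
    have h5 : cv χ p / p = cv χ p * y := by rw [hy]; ring
    rw [h5, ← hy]
    rcases (LM.cv_cases_pr hE.pq p).2 with h | h | h <;> rw [h]
    · rw [if_pos (by norm_num)]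
      exact ⟨by nlinarith, by nlinarith [Real.exp_pos (-y)]⟩
    · rw [if_pos (by norm_num)]
      exact ⟨by nlinarith, by linarith⟩
    · rw [if_neg (by norm_num)]
      exact ⟨by nlinarith, by nlinarith⟩
  have hWN : WW χ (Pz N) ≤ WW χ (Pz (q ^ A)) * Real.exp (-HX χ (Pz N \ Pz (q ^ A))) := by
    have h5 : WW χ (Pz N) = (∏ p ∈ Pz N \ Pz (q ^ A), (1 - 1 / (p : ℝ)) * (1 - cv χ p / p)) *
        WW χ (Pz (q ^ A)) := by
      unfold WW
      rw [Finset.prod_sdiff hsub]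
    have h6 : ∏ p ∈ Pz N \ Pz (q ^ A), (1 - 1 / (p : ℝ)) * (1 - cv χ p / p) ≤
        Real.exp (-HX χ (Pz N \ Pz (q ^ A))) := by
      refine (Finset.prod_le_prod (fun p hp => (hfac p hp).1) fun p hp => (hfac p hp).2).trans ?_
      rw [← Finset.prod_filter, ← Real.exp_sum, Finset.sum_neg_distrib]
      rfl
    have h7 : 0 ≤ WW χ (Pz (q ^ A)) := by
      by_contra h
      push Not at h
      have h8 : WW χ (Pz N) ≤ 0 := by
        rw [h5]
        exact mul_nonpos_of_nonneg_of_nonpos (Finset.prod_nonneg fun p hp => (hfac p hp).1) h.le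
      have h9 : g₀ * WW χ (Pz N) ≤ 0 := mul_nonpos_of_nonneg_of_nonpos hg0.le h8
      linarith
    rw [h5, mul_comm]
    exact mul_le_mul_of_nonneg_left h6 h7
  have h5 : c' ≤ 2 * Real.exp (-HX χ (Pz N \ Pz (q ^ A))) := by
    calc c' ≤ g₀ * WW χ (Pz N) := hlo
      _ ≤ g₀ * (WW χ (Pz (q ^ A)) * Real.exp (-HX χ (Pz N \ Pz (q ^ A)))) :=
          mul_le_mul_of_nonneg_left hWN hg0.le
      _ = (g₀ * WW χ (Pz (q ^ A))) * Real.exp (-HX χ (Pz N \ Pz (q ^ A))) := by ring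
      _ ≤ 2 * Real.exp (-HX χ (Pz N \ Pz (q ^ A))) :=
          mul_le_mul_of_nonneg_right (by linarith) (Real.exp_pos _).le
  have h6 : HX χ (Pz N \ Pz (q ^ A)) ≤ Real.log (2 / c') := by
    rw [Real.le_log_iff_exp_le (by positivity), le_div_iff₀ hc']
    rw [Real.exp_neg] at h5
    have h7 := Real.exp_pos (HX χ (Pz N \ Pz (q ^ A)))
    calc Real.exp (HX χ (Pz N \ Pz (q ^ A))) * c' ≤ Real.exp (HX χ (Pz N \ Pz (q ^ A))) *
          (2 * (Real.exp (HX χ (Pz N \ Pz (q ^ A))))⁻¹) := mul_le_mul_of_nonneg_left h5 h7.le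
      _ = 2 := by field_simp
  -- the first range
  have h7 := hdiff q (q ^ A) (by omega) hqqA
  have h8 : Real.log ((q ^ A : ℕ) : ℝ) / Real.log q = A := by
    have : 0 < Real.log q := Real.log_pos (by
      have : (3 : ℝ) ≤ q := by exact_mod_cast hq3
      linarith)
    push_cast
    rw [Real.log_pow]
    field_simp
  rw [h8] at h7
  have h9 : Pz N \ Pz q ⊆ (Pz (q ^ A) \ Pz q) ∪ (Pz N \ Pz (q ^ A)) := by
    intro p hp
    rw [Finset.mem_sdiff] at hp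
    rw [Finset.mem_union, Finset.mem_sdiff, Finset.mem_sdiff]
    by_cases h : p ∈ Pz (q ^ A)
    · exact Or.inl ⟨h, hp.2⟩
    · exact Or.inr ⟨hp.1, h⟩
  have h10 := (hx_mono χ h9).trans (hx_union χ _ _)
  have h11 := hx_le χ (Pz (q ^ A) \ Pz q)
  have h12 := abs_nonneg (Real.log (2 / c'))
  linarith

/-- the blocks, for every `z₀` -/
theorem bl_two (A₁ z₀ : ℕ) (hA₁ : 1 ≤ A₁) : ∃ q₀ : ℕ, ∀ q : ℕ, q₀ ≤ q →
    (∀ i < nb A₁ q, ∀ j < nb A₁ q, i ≠ j → Disjoint (bl z₀ A₁ q i) (bl z₀ A₁ q j)) ∧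
    (Finset.range (nb A₁ q)).biUnion (bl z₀ A₁ q) = PP z₀ A₁ q := by
  obtain ⟨N₃, hN₃⟩ := Pool.Agent.LVB.bk_disj_pr (1 / 2) (by norm_num) (by norm_num) z₀
  refine ⟨N₃ + 3, fun q hq => ?_⟩
  obtain ⟨Z, hZ⟩ : ∃ Z : ℕ, Z = q ^ (2 * A₁) := ⟨_, rfl⟩
  have hqZ : q ≤ Z := by
    rw [hZ]
    calc q = q ^ 1 := (pow_one q).symm
      _ ≤ q ^ (2 * A₁) := Nat.pow_le_pow_right (by omega) (by omega)
  obtain ⟨h31, h32, h33, h34⟩ := hN₃ Z (by omega)
  have hhalf : (Z : ℝ) ^ (1 / 2 : ℝ) = ((q ^ A₁ : ℕ) : ℝ) := by rw [hZ]; exact bk_half q A₁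
  have hZ1 : (1 : ℝ) ≤ Z := by exact_mod_cast (by omega : 1 ≤ Z)
  have hbl : ∀ i, bl z₀ A₁ q i = Bk (1 / 2) z₀ Z i := fun i => by rw [hZ]; rfl
  have hnb : nb A₁ q = JJ Z := by rw [hZ]; rfl
  simp only [hbl, hnb]
  refine ⟨h32, ?_⟩
  ext p
  have hPP : p ∈ PP z₀ A₁ q ↔ p.Prime ∧ p ≤ q ^ A₁ ∧ z₀ < p := by
    unfold PP
    rw [Finset.mem_sdiff, pz_mem, pz_mem]
    constructor
    · rintro ⟨h1, h2⟩
      refine ⟨h1.1, h1.2, ?_⟩
      by_contra h3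
      exact h2 ⟨h1.1, not_lt.mp h3⟩
    · rintro ⟨h1, h2, h3⟩
      exact ⟨⟨h1, h2⟩, fun h => by omega⟩
  rw [Finset.mem_biUnion, hPP]
  constructor
  · rintro ⟨i, hi, hp⟩
    rw [hbl] at hp
    obtain ⟨h5, h6, h7⟩ := h33 i p hp
    refine ⟨h5, ?_, h6⟩
    have h8 : (Z : ℝ) ^ (1 / 2 * Real.exp (-(i : ℝ))) ≤ (Z : ℝ) ^ (1 / 2 : ℝ) := by
      refine Real.rpow_le_rpow_of_exponent_le hZ1 ?_
      have h9 : Real.exp (-(i : ℝ)) ≤ 1 :=
        Real.exp_le_one_iff.2 (neg_nonpos.2 (Nat.cast_nonneg i))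
      linarith
    rw [hhalf] at h8
    exact_mod_cast h7.trans h8
  · rintro ⟨h5, h6, h7⟩
    have h8 : p ∈ Pool.Agent.LVB.Pr Z := by
      unfold Pool.Agent.LVB.Pr
      rw [Finset.mem_filter, Finset.mem_range]
      refine ⟨lt_of_le_of_lt h6 ?_, h5⟩
      rw [hZ]
      exact Nat.pow_lt_pow_right (by omega) (by omega)
    obtain ⟨i, hi, hp⟩ := h34 p h8 h7 (by rw [hhalf]; exact_mod_cast h6)
    exact ⟨i, Finset.mem_range.mpr hi, by rw [hbl]; exact hp⟩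

end Pool.Agent.TEM
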