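import Pool.Agent.Lib_helper15.TEM.ShA
import Pool.Agent.Lib_helper15.TEM.B.TX
import Pool.Agent.Lib_helper15.TEM.B.TY
import Pool.Agent.Lib_helper15.TEM.One

/-! T12, part IV, sharp form: the typical size of `te`. -/

set_option autoImplicit false

namespace Pool.Agent.TEM

open Complex MeasureTheory Set Filter Topology
open Pool.Agent.LSP (tau MX)
open Pool.Agent.LEV (Um S2 IsNew co la Lh IN zN)
open Pool.Agent.LVB (IsST om AllNew HB ex JJ Bk Kk)
open Pool.Agent.LK (PQ)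
open Pool.Agent.LE
open Pool.Agent.LM (cv Pz th)

/-- the sum of the absolute values of the exponents of the blocks but the last -/
noncomputable def sy {q : ℕ} [NeZero q] (χ : DirichletCharacter ℂ q) (z₀ A₁ : ℕ) (x : ℕ → ℝ) : ℝ :=
  ∑ i ∈ Finset.range (nb A₁ q - 1), |PX χ (bl z₀ A₁ q i) x|

theorem px_filter {q : ℕ} [NeZero q] (χ : DirichletCharacter ℂ q) (S : Finset ℕ) (x : ℕ → ℝ) :
    PX χ S x = PX χ (S.filter (fun p => cv χ p ≠ -1)) x := by
  unfold PX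
  rw [Finset.sum_filter]
  refine Finset.sum_congr rfl fun p _ => ?_
  by_cases h : cv χ p = -1
  · rw [if_neg (not_not.mpr h)]
    unfold lx
    rw [h]
    simp
  · rw [if_pos h]

theorem px_mom {N : ℕ} [Fact N.Prime] (hN : 16 ≤ N) {q : ℕ} [NeZero q]
    (χ : DirichletCharacter ℂ q) (hχ : PQ χ) {ι : Type} [Fintype ι] (f : ι → S2 N) (hf : AllNew f)
    (S : Finset ℕ) (hS : ∀ p ∈ S, 1 ≤ p ∧ (p : ℝ) ≤ (N : ℝ) ^ (1 / 2 : ℝ)) :
    ∑ i, om (f i) * PX χ S (la (f i)) ^ 2 ≤ 8 * (Real.exp (8 * Real.pi * (1 / 2)) * HX χ S) := by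
  have h := ty_block hN χ hχ f hf (S.filter (fun p => cv χ p ≠ -1))
    (fun p hp => hS p (Finset.mem_filter.mp hp).1)
  have h1 : ∀ i, PX χ S (la (f i)) = PX χ (S.filter (fun p => cv χ p ≠ -1)) (la (f i)) :=
    fun i => px_filter χ S _
  simp only [h1]
  exact h

/-- Chebyshev -/
theorem small_px {N : ℕ} [Fact N.Prime] (hN : 16 ≤ N) {q : ℕ} [NeZero q]
    (χ : DirichletCharacter ℂ q) (hχ : PQ χ) (S : Finset ℕ)
    (hS : ∀ p ∈ S, 1 ≤ p ∧ (p : ℝ) ≤ (N : ℝ) ^ (1 / 2 : ℝ)) {τ t : ℝ} (ht : 0 < t)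
    (h : 8 * (Real.exp (8 * Real.pi * (1 / 2)) * HX χ S) ≤ τ * t ^ 2) :
    Small N τ (fun f => t < |PX χ S (la f)|) := by
  intro ι _ f hf u hu
  have h1 := ty_cheb (fun i => om (f i)) (fun i => PX χ S (la (f i))) (ty_om f hf) ht
    ((px_mom hN χ hχ f hf S hS).trans h) u (fun i hi => (hu i hi).le)
  have h2 : 0 < t ^ 2 := by positivity
  exact le_of_mul_le_mul_right h1 h2

theorem small_sy {N : ℕ} [Fact N.Prime] (hN : 16 ≤ N) {q : ℕ} [NeZero q]
    (χ : DirichletCharacter ℂ q) (hχ : PQ χ) (z₀ A₁ : ℕ) (hq : ((q ^ A₁ : ℕ) : ℝ) ≤ (N : ℝ) ^ (1 / 2 : ℝ))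
    {C τ t : ℝ} (hC : ∀ i, i < nb A₁ q - 1 → HB (bl z₀ A₁ q i) ≤ C)
    (hb : ∀ i, ∀ p ∈ bl z₀ A₁ q i, 1 ≤ p ∧ p ≤ q ^ A₁) (ht : 0 < t)
    (h : 8 * (Real.exp (8 * Real.pi * (1 / 2)) * C) * ((nb A₁ q - 1 : ℕ) : ℝ) ^ 2 ≤ τ * t ^ 2) :
    Small N τ (fun f => t < sy χ z₀ A₁ (la f)) := by
  intro ι _ f hf u hu
  obtain ⟨J, hJ⟩ : ∃ J : ℕ, J = nb A₁ q - 1 := ⟨_, rfl⟩
  rw [← hJ] at hC h
  obtain ⟨E, hE⟩ : ∃ E : ℝ, E = Real.exp (8 * Real.pi * (1 / 2)) := ⟨_, rfl⟩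
  have hE0 : 0 < E := by rw [hE]; exact Real.exp_pos _
  rw [← hE] at h
  have hmom : ∀ i, i < J → ∑ k, om (f k) * PX χ (bl z₀ A₁ q i) (la (f k)) ^ 2 ≤ 8 * (E * C) := by
    intro i hi
    have h1 := px_mom hN χ hχ f hf (bl z₀ A₁ q i) (fun p hp => ⟨(hb i p hp).1, by
      refine le_trans ?_ hq
      exact_mod_cast (hb i p hp).2⟩)
    rw [← hE] at h1
    refine h1.trans ?_
    have h2 := (hx_le χ (bl z₀ A₁ q i)).trans (hC i hi)
    have h3 := mul_le_mul_of_nonneg_left h2 hE0.le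
    linarith
  have hsy : ∀ k, sy χ z₀ A₁ (la (f k)) ^ 2 ≤
      J * ∑ i ∈ Finset.range J, PX χ (bl z₀ A₁ q i) (la (f k)) ^ 2 := by
    intro k
    unfold sy
    rw [← hJ]
    have h1 := sq_sum_le_card_mul_sum_sq (s := Finset.range J)
      (f := fun i => |PX χ (bl z₀ A₁ q i) (la (f k))|)
    rw [Finset.card_range] at h1
    refine h1.trans (le_of_eq ?_)
    congr 1
    exact Finset.sum_congr rfl fun i _ => sq_abs _
  have hsum : ∑ k, om (f k) * sy χ z₀ A₁ (la (f k)) ^ 2 ≤ τ * t ^ 2 := by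
    refine le_trans ?_ h
    calc ∑ k, om (f k) * sy χ z₀ A₁ (la (f k)) ^ 2 ≤ ∑ k, om (f k) *
          (J * ∑ i ∈ Finset.range J, PX χ (bl z₀ A₁ q i) (la (f k)) ^ 2) :=
          Finset.sum_le_sum fun k _ => mul_le_mul_of_nonneg_left (hsy k) (ty_om f hf k)
      _ = J * ∑ i ∈ Finset.range J, ∑ k, om (f k) * PX χ (bl z₀ A₁ q i) (la (f k)) ^ 2 := by
          rw [Finset.sum_comm, Finset.mul_sum]
          refine Finset.sum_congr rfl fun k _ => ?_
          rw [Finset.mul_sum, Finset.mul_sum, Finset.mul_sum]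
          exact Finset.sum_congr rfl fun i _ => by ring
      _ ≤ J * ∑ i ∈ Finset.range J, 8 * (E * C) := by
          refine mul_le_mul_of_nonneg_left ?_ (Nat.cast_nonneg _)
          exact Finset.sum_le_sum fun i hi => hmom i (Finset.mem_range.mp hi)
      _ = 8 * (E * C) * (J : ℝ) ^ 2 := by
          rw [Finset.sum_const, Finset.card_range, nsmul_eq_mul]
          ring
  have h1 := ty_cheb (fun i => om (f i)) (fun i => sy χ z₀ A₁ (la (f i))) (ty_om f hf) ht hsum u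
    (fun i hi => (hu i hi).le.trans (le_abs_self _))
  exact le_of_mul_le_mul_right h1 (by positivity)

/-- upper bound for `te` if the last exponent is not large -/
theorem te_sharp {q : ℕ} [NeZero q] (χ : DirichletCharacter ℂ q) (A z₀ A₁ : ℕ) (x : ℕ → ℝ)
    (hnb : 1 ≤ nb A₁ q)
    (hd : ∀ i < nb A₁ q, ∀ j < nb A₁ q, i ≠ j → Disjoint (bl z₀ A₁ q i) (bl z₀ A₁ q j))
    (hu : (Finset.range (nb A₁ q)).biUnion (bl z₀ A₁ q) = PP z₀ A₁ q)
    (hl : |PX χ (bl z₀ A₁ q (nb A₁ q - 1)) x| ≤ (dg A A₁ q (nb A₁ q - 1) : ℝ) / 2) :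
    te χ A z₀ A₁ x ≤ 2 * Real.exp (-PX χ (PP z₀ A₁ q) x + 2 * sy χ z₀ A₁ x) := by
  obtain ⟨J, hJ⟩ : ∃ J : ℕ, nb A₁ q = J + 1 := ⟨nb A₁ q - 1, by omega⟩
  have hJ1 : nb A₁ q - 1 = J := by omega
  rw [hJ1] at hl
  have hPP : PX χ (PP z₀ A₁ q) x = ∑ i ∈ Finset.range (J + 1), PX χ (bl z₀ A₁ q i) x := by
    rw [← hu, hJ]
    unfold PX
    rw [Finset.sum_biUnion]
    intro i hi j hj hij
    rw [hJ] at hd
    exact hd i (Finset.mem_range.mp hi) j (Finset.mem_range.mp hj) hij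
  unfold te sy
  rw [hJ1, hJ, Finset.prod_range_succ, hPP, Finset.sum_range_succ]
  have h1 : ∏ i ∈ Finset.range J, ex (dg A A₁ q i) (-PX χ (bl z₀ A₁ q i) x) ≤
      Real.exp (∑ i ∈ Finset.range J, |PX χ (bl z₀ A₁ q i) x|) := by
    rw [Real.exp_sum]
    refine Finset.prod_le_prod (fun i _ => (Pool.Agent.LVB.ex_pos_pr _ _).le) fun i _ => ?_
    have := Pool.Agent.LVB.ex_le_pr (dg A A₁ q i) (-PX χ (bl z₀ A₁ q i) x)
    rwa [abs_neg] at this
  obtain ⟨t, ht⟩ : ∃ t : ℝ, t = -PX χ (bl z₀ A₁ q J) x := ⟨_, rfl⟩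
  have htK : |t| ≤ (dg A A₁ q J : ℝ) / 2 := by rw [ht, abs_neg]; exact hl
  have h2 : ex (dg A A₁ q J) t ≤ 2 * Real.exp t := by
    have h3 := (abs_le.mp (Pool.Agent.LVB.ex_near_pr (dg A A₁ q J) t)).2
    have h4 : Real.exp (-(2 * (dg A A₁ q J : ℝ) + 1)) * Real.exp (Real.exp 1 * |t|) ≤ Real.exp t := by
      rw [← Real.exp_add]
      apply Real.exp_le_exp.mpr
      have h5 := Real.exp_one_lt_d9
      have h6 := abs_nonneg t
      have h7 := neg_abs_le t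
      nlinarith
    linarith
  have h3 : ∑ i ∈ Finset.range J, |PX χ (bl z₀ A₁ q i) x| ≤
      -∑ i ∈ Finset.range J, PX χ (bl z₀ A₁ q i) x +
        2 * ∑ i ∈ Finset.range J, |PX χ (bl z₀ A₁ q i) x| := by
    have h4 : ∑ i ∈ Finset.range J, PX χ (bl z₀ A₁ q i) x ≤
        ∑ i ∈ Finset.range J, |PX χ (bl z₀ A₁ q i) x| :=
      Finset.sum_le_sum fun i _ => le_abs_self _
    linarith
  rw [← ht]
  calc (∏ i ∈ Finset.range J, ex (dg A A₁ q i) (-PX χ (bl z₀ A₁ q i) x)) * ex (dg A A₁ q J) t ≤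
        Real.exp (∑ i ∈ Finset.range J, |PX χ (bl z₀ A₁ q i) x|) * (2 * Real.exp t) :=
          mul_le_mul h1 h2 (Pool.Agent.LVB.ex_pos_pr _ _).le (Real.exp_pos _).le
    _ ≤ Real.exp (-∑ i ∈ Finset.range J, PX χ (bl z₀ A₁ q i) x +
        2 * ∑ i ∈ Finset.range J, |PX χ (bl z₀ A₁ q i) x|) * (2 * Real.exp t) :=
          mul_le_mul_of_nonneg_right (Real.exp_le_exp.mpr h3) (by positivity)
    _ = _ := by
        rw [mul_left_comm, ← Real.exp_add, ht]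
        congr 2
        ring

/-- growth -/
theorem ll_grow (M : ℝ) : ∃ N₀ : ℕ, ∀ N : ℕ, N₀ ≤ N → 16 ≤ N ∧ M ≤ Real.log (Real.log N) ∧
    M * (1 + Real.log (Real.log (Real.log N))) ^ 2 ≤ Real.log (Real.log N) := by
  have hl : Tendsto (fun N : ℕ => Real.log (Real.log (N : ℝ))) atTop atTop :=
    Real.tendsto_log_atTop.comp (Real.tendsto_log_atTop.comp tendsto_natCast_atTop_atTop)
  have h1 : Tendsto (fun y : ℝ => (1 + Real.log y) ^ 2 / y) atTop (𝓝 0) := by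
    have ha := isLittleO_log_rpow_atTop (r := (1 / 4 : ℝ)) (by norm_num)
    have hb : (fun y : ℝ => (1 + Real.log y) ^ 2) =o[atTop] fun y : ℝ => y := by
      have hc : (fun y : ℝ => 1 + Real.log y) =o[atTop] fun y : ℝ => y ^ (1 / 4 : ℝ) := by
        refine Asymptotics.IsLittleO.add ?_ ha
        have hd : Tendsto (fun y : ℝ => y ^ (1 / 4 : ℝ)) atTop atTop :=
          tendsto_rpow_atTop (by norm_num)
        exact Asymptotics.isLittleO_const_left.mpr (Or.inr (tendsto_norm_atTop_atTop.comp hd))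
      have he := hc.mul hc
      have hf : (fun y : ℝ => y ^ (1 / 4 : ℝ) * y ^ (1 / 4 : ℝ)) =O[atTop] fun y : ℝ => y := by
        refine Asymptotics.IsBigO.of_bound 1 ?_
        filter_upwards [eventually_ge_atTop (1 : ℝ)] with y hy
        rw [← Real.rpow_add (by linarith), one_mul, Real.norm_eq_abs, Real.norm_eq_abs,
          abs_of_nonneg (by positivity), abs_of_nonneg (by linarith)]
        calc y ^ (1 / 4 + 1 / 4 : ℝ) ≤ y ^ (1 : ℝ) :=
              Real.rpow_le_rpow_of_exponent_le hy (by norm_num)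
          _ = y := Real.rpow_one _
      have hg := he.trans_isBigO hf
      refine hg.congr_left fun y => ?_
      ring
    exact hb.tendsto_div_nhds_zero
  have h2 := (h1.comp hl).eventually (gt_mem_nhds (show (0 : ℝ) < 1 / (|M| + 1) by positivity))
  obtain ⟨N₀, hN₀⟩ := Filter.eventually_atTop.mp
    (((eventually_ge_atTop 16).and (hl.eventually_ge_atTop (max M 1))).and h2)
  refine ⟨N₀, fun N hN => ?_⟩
  obtain ⟨⟨h3, h4⟩, h5⟩ := hN₀ N hN
  refine ⟨h3, (le_max_left _ _).trans h4, ?_⟩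
  have h6 : 0 < Real.log (Real.log N) := by linarith [(le_max_right M 1).trans h4]
  simp only [Function.comp] at h5
  rw [div_lt_div_iff₀ h6 (by positivity)] at h5
  have h7 : 0 ≤ (1 + Real.log (Real.log (Real.log N))) ^ 2 := sq_nonneg _
  calc M * (1 + Real.log (Real.log (Real.log N))) ^ 2 ≤
        (|M| + 1) * (1 + Real.log (Real.log (Real.log N))) ^ 2 :=
          mul_le_mul_of_nonneg_right (by linarith [le_abs_self M]) h7
    _ ≤ Real.log (Real.log N) := by linarith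

end Pool.Agent.TEM
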