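import Pool.Agent.Lib_helper15.TEM.ShB
import Pool.Agent.Lib_helper15.TEM.Four

/-! T12, part IV, sharp form: the class `χ(-N) = -1`. -/

set_option autoImplicit false

namespace Pool.Agent.TEM

open Complex MeasureTheory Set Filter Topology
open Pool.Agent.LSP (tau MX)
open Pool.Agent.LEV (Um S2 IsNew co la Lh IN zN)
open Pool.Agent.LVB (IsST om AllNew HB ex JJ Bk Kk)
open Pool.Agent.LK (PQ)
open Pool.Agent.LE
open Pool.Agent.LM (cv Pz th)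
open Pool.Agent.LX (Ex)

/-- the elements of a block -/
theorem bl_mem {z₀ A₁ q i p : ℕ} (hq : 1 ≤ q) (hp : p ∈ bl z₀ A₁ q i) : 1 ≤ p ∧ p ≤ q ^ A₁ := by
  simp only [bl, Bk, Finset.mem_filter, Finset.mem_Icc] at hp
  obtain ⟨⟨hp1, -⟩, -, -, -, hp2⟩ := hp
  refine ⟨hp1, ?_⟩
  have hexp : Real.exp (-(i : ℝ)) ≤ 1 := by
    rw [Real.exp_le_one_iff]
    have : (0 : ℝ) ≤ i := Nat.cast_nonneg i
    linarith
  have hZ1 : (1 : ℝ) ≤ ((q ^ (2 * A₁) : ℕ) : ℝ) := by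
    exact_mod_cast Nat.one_le_pow _ _ (by omega)
  have h1 : ((q ^ (2 * A₁) : ℕ) : ℝ) ^ (1 / 2 * Real.exp (-(i : ℝ))) ≤
      ((q ^ (2 * A₁) : ℕ) : ℝ) ^ (1 / 2 : ℝ) := by
    apply Real.rpow_le_rpow_of_exponent_le hZ1
    linarith
  rw [bk_half] at h1
  exact_mod_cast hp2.trans h1

theorem px_union {q : ℕ} [NeZero q] (χ : DirichletCharacter ℂ q) (S T : Finset ℕ) (x : ℕ → ℝ) :
    PX χ S x - PX χ T x = PX χ (S \ T) x - PX χ (T \ S) x := by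
  unfold PX
  rw [← Finset.sum_sdiff_sub_sum_sdiff]

/-- the primes up to the square of `loglog` and between `zN` and `N` -/
theorem ends_hb : ∃ C : ℝ, 0 ≤ C ∧ ∀ N : ℕ, 2 ≤ Real.log (Real.log N) →
    2 ≤ zN N → zN N ≤ N → HB (Pz ⌊Real.log (Real.log N)⌋₊ ∪ (Pz N \ Pz ⌊zN N⌋₊)) ≤
      3 * Real.log (Real.log (Real.log N)) + C := by
  obtain ⟨C, hC⟩ := Pool.Agent.LEV.mertens_two_pr
  have hC0 : 0 ≤ C := (abs_nonneg _).trans (hC 2 le_rfl)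
  refine ⟨3 * C, by positivity, fun N hL hz hzN => ?_⟩
  obtain ⟨L, hLd⟩ : ∃ L : ℝ, L = Real.log (Real.log N) := ⟨_, rfl⟩
  rw [← hLd] at hL ⊢
  have h1 := (abs_le.mp (hC L hL)).2
  have h2 := (abs_le.mp (hC (zN N) hz)).1
  have h3 := (abs_le.mp (hC N (hz.trans hzN))).2
  rw [Nat.floor_natCast] at h3
  have hsub : Pz ⌊zN N⌋₊ ⊆ Pz N := fun p hp => by
    rw [pz_mem] at hp ⊢
    refine ⟨hp.1, hp.2.trans ?_⟩
    have := Nat.floor_mono hzN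
    rwa [Nat.floor_natCast] at this
  have h4 : HB (Pz N \ Pz ⌊zN N⌋₊) = HB (Pz N) - HB (Pz ⌊zN N⌋₊) := by
    unfold HB
    rw [← Finset.sum_sdiff hsub]
    ring
  have h5 : ∀ n : ℕ, HB (Pz n) = ∑ p ∈ (Finset.Icc 1 n).filter Nat.Prime, 1 / (p : ℝ) :=
    fun n => rfl
  have h6 : HB (Pz ⌊L⌋₊ ∪ (Pz N \ Pz ⌊zN N⌋₊)) ≤ HB (Pz ⌊L⌋₊) + HB (Pz N \ Pz ⌊zN N⌋₊) := by
    unfold HB
    rw [← Finset.sum_union_inter]
    have : 0 ≤ ∑ p ∈ Pz ⌊L⌋₊ ∩ (Pz N \ Pz ⌊zN N⌋₊), 1 / (p : ℝ) :=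
      Finset.sum_nonneg fun p _ => by positivity
    linarith
  have hlogN : 0 < Real.log N := by
    by_contra h
    push Not at h
    have : Real.log N = 0 := le_antisymm h (Real.log_natCast_nonneg N)
    rw [this, Real.log_zero] at hLd
    linarith
  have h7 : Real.log (Real.log (zN N)) = L - 2 * Real.log L := by
    unfold Pool.Agent.LEV.zN
    rw [Real.log_exp, ← hLd, Real.log_div hlogN.ne' (by positivity), Real.log_pow, ← hLd]
    push_cast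
    ring
  have h8 : Real.log (Real.log L) ≤ Real.log L := by
    have h9 : 0 < Real.log L := Real.log_pos (by linarith)
    linarith [Real.log_le_sub_one_of_pos h9]
  rw [h5, h5] at h4
  rw [h5, h4] at h6
  rw [← hLd] at h3
  rw [h7] at h2
  linarith

/-- typical size of the last block -/
theorem small_last {τ : ℝ} (hτ : 0 < τ) (z₀ A₁ A : ℕ) (hA₁ : 1 ≤ A₁) (hA : 1 ≤ A) : ∃ p₁ : ℕ,
    ∀ (N : ℕ) [Fact N.Prime], 16 ≤ N → ∀ (q : ℕ) [NeZero q] (χ : DirichletCharacter ℂ q), PQ χ →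
    p₁ ≤ q → ((q ^ A₁ : ℕ) : ℝ) ≤ (N : ℝ) ^ (1 / 2 : ℝ) → Small N τ (fun f =>
      ¬ |PX χ (bl z₀ A₁ q (nb A₁ q - 1)) (la f)| ≤ (dg A A₁ q (nb A₁ q - 1) : ℝ) / 2) := by
  obtain ⟨C, hC, hb⟩ := Pool.Agent.LVB.hb_bounds_pr
  obtain ⟨N₁, hN₁⟩ := hb (1 / 2) (by norm_num) (by norm_num) z₀
  obtain ⟨E, hE⟩ : ∃ E : ℝ, E = Real.exp (8 * Real.pi * (1 / 2)) := ⟨_, rfl⟩
  have hE0 : 0 < E := by rw [hE]; exact Real.exp_pos _
  obtain ⟨N₂, hN₂⟩ := ll_grow (C + 64 * E / τ + 1)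
  refine ⟨N₁ + N₂ + 3, fun N _ hN q _ χ hχ hq hqN => ?_⟩
  obtain ⟨Z, hZ⟩ : ∃ Z : ℕ, Z = q ^ (2 * A₁) := ⟨_, rfl⟩
  have hqZ : q ≤ Z := by
    rw [hZ]
    calc q = q ^ 1 := (pow_one q).symm
      _ ≤ q ^ (2 * A₁) := Nat.pow_le_pow_right (by omega) (by omega)
  obtain ⟨-, h1, -⟩ := hN₁ Z (by omega)
  obtain ⟨-, h2, -⟩ := hN₂ Z (by omega)
  obtain ⟨l, hl⟩ : ∃ l : ℝ, l = Real.log (Real.log Z) := ⟨_, rfl⟩
  rw [← hl] at h1 h2
  have hCE : 0 ≤ 64 * E / τ := by positivity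
  have hl0 : 0 < l := by linarith
  have hnb : nb A₁ q = JJ Z := by rw [hZ]; rfl
  have hJ : 1 ≤ JJ Z := by unfold Pool.Agent.LVB.JJ; omega
  have hdg : (l : ℝ) ≤ (dg A A₁ q (nb A₁ q - 1) : ℝ) := by
    have h3 : dg A A₁ q (nb A₁ q - 1) = A * ⌈l⌉₊ := by
      unfold dg
      rw [← hZ, hnb]
      unfold Pool.Agent.LVB.Kk
      rw [if_neg (by omega), hl]
    rw [h3]
    push_cast
    have h4 : (1 : ℝ) ≤ A := by exact_mod_cast hA
    have h5 := Nat.le_ceil l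
    have h6 : (0 : ℝ) ≤ (⌈l⌉₊ : ℝ) := Nat.cast_nonneg _
    nlinarith
  have hs := small_px hN χ hχ (bl z₀ A₁ q (nb A₁ q - 1)) (fun p hp => by
    obtain ⟨h3, h4⟩ := bl_mem (by omega) hp
    refine ⟨h3, le_trans ?_ hqN⟩
    exact_mod_cast h4) (τ := τ) (t := (dg A A₁ q (nb A₁ q - 1) : ℝ) / 2) (by linarith) (by
    rw [← hE]
    have h3 : HX χ (bl z₀ A₁ q (nb A₁ q - 1)) ≤ l + C := by
      refine (hx_le χ _).trans ?_
      have := h1 (nb A₁ q - 1)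
      rw [hZ] at this
      exact this
    have h4 : 64 * E ≤ τ * l := by
      have h5 : 64 * E / τ ≤ l := by linarith
      rw [div_le_iff₀ hτ] at h5
      linarith
    have h6 : 8 * (E * (l + C)) ≤ 8 * (E * (l + l)) := by
      have : E * (l + C) ≤ E * (l + l) := mul_le_mul_of_nonneg_left (by linarith) hE0.le
      linarith
    have h7 : τ * (l / 2) ^ 2 ≤ τ * ((dg A A₁ q (nb A₁ q - 1) : ℝ) / 2) ^ 2 := by
      refine mul_le_mul_of_nonneg_left ?_ hτ.le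
      exact pow_le_pow_left₀ (by positivity) (by linarith) 2
    have h8 : 8 * (E * HX χ (bl z₀ A₁ q (nb A₁ q - 1))) ≤ 8 * (E * (l + C)) := by
      have := mul_le_mul_of_nonneg_left h3 hE0.le
      linarith
    have h9 : 8 * (E * (l + l)) ≤ τ * (l / 2) ^ 2 := by nlinarith
    linarith)
  exact hs.mono le_rfl fun f hf => not_le.mp hf

/-- the size of `zN` -/
theorem zn_facts {N : ℕ} (hL : 16 ≤ Real.log (Real.log N)) : 2 ≤ zN N ∧
    zN N ≤ (N : ℝ) ^ (1 / 2 : ℝ) ∧ (N : ℝ) ^ (1 / 2 : ℝ) ≤ N ∧ 16 ≤ N := by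
  obtain ⟨L, hLd⟩ : ∃ L : ℝ, L = Real.log (Real.log N) := ⟨_, rfl⟩
  rw [← hLd] at hL
  have hL0 : 0 < L := by linarith
  have hlogN : 0 < Real.log N := by
    by_contra h
    push Not at h
    have : Real.log N = 0 := le_antisymm h (Real.log_natCast_nonneg N)
    rw [this, Real.log_zero] at hLd
    linarith
  have hN0 : (0 : ℝ) < N := by
    by_contra h
    push Not at h
    have : (N : ℝ) = 0 := le_antisymm h (Nat.cast_nonneg N)
    rw [this, Real.log_zero] at hlogN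
    exact lt_irrefl _ hlogN
  have hlogN' : Real.exp L = Real.log N := by rw [hLd, Real.exp_log hlogN]
  have hlog16 : 16 ≤ Real.log N := by
    rw [← hlogN']
    linarith [Real.add_one_le_exp L]
  have hN16 : (16 : ℝ) ≤ N := by
    have := Real.log_le_sub_one_of_pos hN0
    linarith
  have hexpL2 : L ^ 2 ≤ Real.log N := by
    rw [← hlogN']
    have h1 : (L / 2) ^ 2 / 2 ≤ Real.exp (L / 2) := by
      have := Real.quadratic_le_exp_of_nonneg (show 0 ≤ L / 2 by linarith)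
      linarith
    have h2 : Real.exp L = Real.exp (L / 2) ^ 2 := by rw [← Real.exp_nat_mul]; congr 1; push_cast; ring
    rw [h2]
    have h3 : L ≤ (L / 2) ^ 2 / 2 := by nlinarith
    exact pow_le_pow_left₀ hL0.le (h3.trans h1) 2
  refine ⟨?_, ?_, ?_, by exact_mod_cast hN16⟩
  · unfold Pool.Agent.LEV.zN
    rw [← hLd]
    have h1 : 1 ≤ Real.log N / L ^ 2 := by
      rw [le_div_iff₀ (by positivity), one_mul]
      exact hexpL2
    have h2 := Real.add_one_le_exp (Real.log N / L ^ 2)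
    linarith
  · unfold Pool.Agent.LEV.zN
    rw [← hLd, Real.rpow_def_of_pos hN0]
    apply Real.exp_le_exp.mpr
    rw [div_le_iff₀ (by positivity)]
    have : 2 ≤ L ^ 2 := by nlinarith
    nlinarith
  · calc (N : ℝ) ^ (1 / 2 : ℝ) ≤ (N : ℝ) ^ (1 : ℝ) :=
          Real.rpow_le_rpow_of_exponent_le (by linarith) (by norm_num)
      _ = N := Real.rpow_one _

/-- the number of blocks -/
theorem nb_le {N q A₁ : ℕ} (hL : 1 ≤ Real.log (Real.log N)) (hq : 1 ≤ q)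
    (hqN : (q : ℝ) ^ (2 * A₁) ≤ N) :
    ((nb A₁ q - 1 : ℕ) : ℝ) ≤ 2 * (1 + Real.log (Real.log (Real.log N))) := by
  obtain ⟨Z, hZ⟩ : ∃ Z : ℕ, Z = q ^ (2 * A₁) := ⟨_, rfl⟩
  have hZ1 : 1 ≤ Z := by rw [hZ]; exact Nat.one_le_pow _ _ (by omega)
  have hZN : Z ≤ N := by
    have : ((Z : ℕ) : ℝ) ≤ N := by rw [hZ]; push_cast; exact hqN
    exact_mod_cast this
  have hnb : nb A₁ q = JJ Z := by rw [hZ]; rfl
  have h2 : JJ Z ≤ JJ N := ty_JJ Z N hZ1 hZN hL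
  have h3 : JJ N = ⌈2 * Real.log (Real.log (Real.log N))⌉₊ + 1 := rfl
  have h4 : nb A₁ q - 1 ≤ ⌈2 * Real.log (Real.log (Real.log N))⌉₊ := by rw [hnb]; omega
  have h5 : ((nb A₁ q - 1 : ℕ) : ℝ) ≤ (⌈2 * Real.log (Real.log (Real.log N))⌉₊ : ℝ) := by
    exact_mod_cast h4
  have hlL : 0 ≤ Real.log (Real.log (Real.log N)) := Real.log_nonneg hL
  have h6 := Nat.ceil_lt_add_one (show 0 ≤ 2 * Real.log (Real.log (Real.log N)) by positivity)
  linarith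

/-- the difference of the two sets of primes -/
theorem hx_one {q : ℕ} [NeZero q] (χ : DirichletCharacter ℂ q) (z₀ A₁ N : ℕ)
    (hL : 16 ≤ Real.log (Real.log N)) (hqA : ((q ^ A₁ : ℕ) : ℝ) ≤ (N : ℝ) ^ (1 / 2 : ℝ)) :
    HX χ (PP z₀ A₁ q \ IN N) ≤
      HB (Pz ⌊Real.log (Real.log N)⌋₊ ∪ (Pz N \ Pz ⌊zN N⌋₊)) := by
  obtain ⟨-, -, hNh, -⟩ := zn_facts hL
  have h1 : PP z₀ A₁ q \ IN N ⊆ Pz ⌊Real.log (Real.log N)⌋₊ ∪ (Pz N \ Pz ⌊zN N⌋₊) := by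
    intro p hp
    rw [Finset.mem_sdiff] at hp
    obtain ⟨h1, h2⟩ := hp
    unfold PP at h1
    rw [Finset.mem_sdiff, pz_mem, pz_mem] at h1
    rw [Finset.mem_union, Finset.mem_sdiff, pz_mem, pz_mem, pz_mem]
    by_cases h3 : p ≤ ⌊zN N⌋₊
    · refine Or.inl ⟨h1.1.1, ?_⟩
      by_contra h4
      apply h2
      unfold Pool.Agent.LEV.IN
      rw [Finset.mem_filter, Finset.mem_Icc]
      refine ⟨⟨h1.1.1.one_lt.le, h3⟩, h1.1.1, ?_⟩
      rw [not_le] at h4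
      exact (Nat.floor_lt (by linarith)).mp h4
    · refine Or.inr ⟨⟨h1.1.1, ?_⟩, fun h => h3 h.2⟩
      have h4 : (p : ℝ) ≤ N := by
        refine le_trans ?_ (hqA.trans hNh)
        exact_mod_cast h1.1.2
      exact_mod_cast h4
  exact (hx_mono χ h1).trans (hx_le χ _)

theorem hx_two {q : ℕ} [NeZero q] (χ : DirichletCharacter ℂ q) (z₀ A₁ N : ℕ) (hA₁ : 1 ≤ A₁)
    (hL : 16 ≤ Real.log (Real.log N)) :
    HX χ (IN N \ PP z₀ A₁ q) ≤ HB (Pz z₀) + HX χ (Pz N \ Pz q) := by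
  obtain ⟨hz2, hzh, hNh, -⟩ := zn_facts hL
  have hIN : ∀ p ∈ IN N, p.Prime ∧ p ≤ ⌊zN N⌋₊ := fun p hp => by
    unfold Pool.Agent.LEV.IN at hp
    rw [Finset.mem_filter, Finset.mem_Icc] at hp
    exact ⟨hp.2.1, hp.1.2⟩
  have hqqA : q ≤ q ^ A₁ := Nat.le_self_pow (by omega) q
  have h1 : IN N \ PP z₀ A₁ q ⊆ Pz z₀ ∪ (Pz N \ Pz q) := by
    intro p hp
    rw [Finset.mem_sdiff] at hp
    obtain ⟨h1, h2⟩ := hIN p hp.1
    have h3 := hp.2
    unfold PP at h3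
    rw [Finset.mem_sdiff, pz_mem, pz_mem] at h3
    rw [Finset.mem_union, Finset.mem_sdiff, pz_mem, pz_mem, pz_mem]
    by_cases h4 : p ≤ z₀
    · exact Or.inl ⟨h1, h4⟩
    · refine Or.inr ⟨⟨h1, ?_⟩, fun h => h3 ⟨⟨h1, h.2.trans hqqA⟩, fun h5 => h4 h5.2⟩⟩
      have h5 : (p : ℝ) ≤ N := ((Nat.le_floor_iff (by linarith)).mp h2).trans (hzh.trans hNh)
      exact_mod_cast h5
  refine (hx_mono χ h1).trans ((hx_union χ _ _).trans ?_)
  have h3 := hx_le χ (Pz z₀)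
  linarith

/-- typical size of the difference -/
theorem small_two {N : ℕ} [Fact N.Prime] {q : ℕ} [NeZero q] (χ : DirichletCharacter ℂ q)
    (hχ : PQ χ) (z₀ A₁ : ℕ) (hA₁ : 1 ≤ A₁) (hL : 16 ≤ Real.log (Real.log N))
    (hqA : ((q ^ A₁ : ℕ) : ℝ) ≤ (N : ℝ) ^ (1 / 2 : ℝ)) {τ t H : ℝ} (ht : 0 < t)
    (h : 8 * (Real.exp (8 * Real.pi * (1 / 2)) * H) ≤ τ * t ^ 2)
    (h1 : HB (Pz ⌊Real.log (Real.log N)⌋₊ ∪ (Pz N \ Pz ⌊zN N⌋₊)) ≤ H)
    (h2 : HB (Pz z₀) + HX χ (Pz N \ Pz q) ≤ H) :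
    Small N (τ + τ) (fun f => 2 * t < |PX χ (PP z₀ A₁ q) (la f) - PX χ (IN N) (la f)|) := by
  obtain ⟨hz2, hzh, hNh, hN16⟩ := zn_facts hL
  have hE : 0 < Real.exp (8 * Real.pi * (1 / 2)) := Real.exp_pos _
  have s1 : Small N τ (fun f => t < |PX χ (PP z₀ A₁ q \ IN N) (la f)|) := by
    refine small_px hN16 χ hχ _ (fun p hp => ?_) ht (le_trans ?_ h)
    · rw [Finset.mem_sdiff] at hp
      have h1 := hp.1
      unfold PP at h1
      rw [Finset.mem_sdiff, pz_mem] at h1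
      refine ⟨h1.1.1.one_lt.le, le_trans ?_ hqA⟩
      exact_mod_cast h1.1.2
    · have := mul_le_mul_of_nonneg_left ((hx_one χ z₀ A₁ N hL hqA).trans h1) hE.le
      linarith
  have s2 : Small N τ (fun f => t < |PX χ (IN N \ PP z₀ A₁ q) (la f)|) := by
    refine small_px hN16 χ hχ _ (fun p hp => ?_) ht (le_trans ?_ h)
    · rw [Finset.mem_sdiff] at hp
      have h1 := hp.1
      unfold Pool.Agent.LEV.IN at h1
      rw [Finset.mem_filter, Finset.mem_Icc] at h1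
      refine ⟨h1.1.1, le_trans ?_ hzh⟩
      exact (Nat.le_floor_iff (by linarith)).mp h1.1.2
    · have := mul_le_mul_of_nonneg_left ((hx_two χ z₀ A₁ N hA₁ hL).trans h2) hE.le
      linarith
  refine (s1.or s2).mono le_rfl fun f hf => ?_
  by_contra hcon
  push Not at hcon
  have h3 := px_union χ (PP z₀ A₁ q) (IN N) (la f)
  rw [h3] at hf
  have h4 := abs_sub (PX χ (PP z₀ A₁ q \ IN N) (la f)) (PX χ (IN N \ PP z₀ A₁ q) (la f))
  linarith [hcon.1, hcon.2]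

/-- **the typical size of `te`** -/
theorem typ_sharp {τ δ : ℝ} (hτ : 0 < τ) (hδ : 0 < δ) (z₀ A₁ A : ℕ) (hA₁ : 1 ≤ A₁) (hA : 1 ≤ A)
    (C₀ : ℝ) : ∃ p₁ N₀ : ℕ, ∀ (N : ℕ) [Fact N.Prime], N₀ ≤ N → ∀ (q : ℕ) [NeZero q]
    (χ : DirichletCharacter ℂ q), PQ χ → p₁ ≤ q → (q : ℝ) ^ (2 * A₁) ≤ N →
    HX χ (Pz N \ Pz q) ≤ C₀ → Small N τ (fun f => ¬ te χ A z₀ A₁ (la f) ≤
      Real.exp (-PX χ (IN N) (la f) + δ * Real.sqrt (Real.log (Real.log N)))) := by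
  obtain ⟨C₁, hC₁, hb⟩ := Pool.Agent.LVB.hb_bounds_pr
  obtain ⟨p₂, hp₂⟩ := hb (1 / 2) (by norm_num) (by norm_num) z₀
  obtain ⟨p₃, hp₃⟩ := small_last (τ := τ / 4) (by positivity) z₀ A₁ A hA₁ hA
  obtain ⟨p₄, hp₄⟩ := bl_two A₁ z₀ hA₁
  obtain ⟨C₂, hC₂, hends⟩ := ends_hb
  obtain ⟨E, hE⟩ : ∃ E : ℝ, E = Real.exp (8 * Real.pi * (1 / 2)) := ⟨_, rfl⟩
  have hE0 : 0 < E := by rw [hE]; exact Real.exp_pos _
  obtain ⟨M, hM⟩ : ∃ M : ℝ, M = 4 * C₁ + (3 + C₂) + (HB (Pz z₀) + |C₀|) := ⟨_, rfl⟩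
  have hHB0 : 0 ≤ HB (Pz z₀) := by unfold HB; exact Finset.sum_nonneg fun p _ => by positivity
  have hC0 := abs_nonneg C₀
  have hM1 : 4 * C₁ ≤ M := by linarith
  have hM2 : 3 + C₂ ≤ M := by linarith
  have hM3 : HB (Pz z₀) + C₀ ≤ M := by linarith [le_abs_self C₀]
  have hM0 : 0 < M := by linarith
  obtain ⟨N₁, hN₁⟩ := ll_grow (8 * E * M * 256 / (τ * δ ^ 2) + 16 + 4 / δ ^ 2)
  refine ⟨p₂ + p₃ + p₄ + 3, N₁ + 16, fun N _ hN q _ χ hχ hq hqN hHX => ?_⟩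
  obtain ⟨hN16, hL1, hL2⟩ := hN₁ N (by omega)
  obtain ⟨L, hL⟩ : ∃ L : ℝ, L = Real.log (Real.log N) := ⟨_, rfl⟩
  rw [← hL] at hL1 hL2 ⊢
  obtain ⟨G, hG⟩ : ∃ G : ℝ, G = 8 * E * M * 256 / (τ * δ ^ 2) := ⟨_, rfl⟩
  have hG0 : 0 ≤ G := by rw [hG]; positivity
  rw [← hG] at hL1 hL2
  have h4δ : 0 < 4 / δ ^ 2 := by positivity
  have hL16 : 16 ≤ L := by linarith
  have hL0 : 0 < L := by linarith
  have hlL : 0 ≤ Real.log L := Real.log_nonneg (by linarith)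
  obtain ⟨s, hs⟩ : ∃ s : ℝ, s = Real.sqrt L := ⟨_, rfl⟩
  have hs0 : 0 < s := by rw [hs]; exact Real.sqrt_pos.mpr hL0
  have hs2 : s ^ 2 = L := by rw [hs]; exact Real.sq_sqrt hL0.le
  rw [← hs]
  obtain ⟨W, hW⟩ : ∃ W : ℝ, W = (1 + Real.log L) ^ 2 := ⟨_, rfl⟩
  have hW1 : 1 ≤ W := by rw [hW]; nlinarith
  have hWl : Real.log L ≤ W := by rw [hW]; nlinarith
  have hW0 : 0 < W := by linarith
  -- the main inequality
  have hmain : 8 * (E * (M * W)) ≤ τ / 4 * (δ / 8 * s) ^ 2 := by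
    have h1 : G * W ≤ L := by
      rw [← hW] at hL2
      refine le_trans ?_ hL2
      exact mul_le_mul_of_nonneg_right (by linarith) hW0.le
    rw [hG, div_mul_eq_mul_div, div_le_iff₀ (by positivity)] at h1
    rw [mul_pow, hs2]
    linarith
  have hq1' : 1 ≤ q := by omega
  have hqA : ((q ^ A₁ : ℕ) : ℝ) ≤ (N : ℝ) ^ (1 / 2 : ℝ) := by
    rw [← Real.sqrt_eq_rpow]
    apply Real.le_sqrt_of_sq_le
    push_cast
    rw [← pow_mul, mul_comm]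
    exact hqN
  obtain ⟨hz2, hzh, hNh, -⟩ := zn_facts (N := N) (by rw [← hL]; exact hL16)
  -- (b)
  have hb1 : Small N (τ / 4) (fun f => δ / 8 * s < sy χ z₀ A₁ (la f)) := by
    obtain ⟨Z, hZ⟩ : ∃ Z : ℕ, Z = q ^ (2 * A₁) := ⟨_, rfl⟩
    have hqZ : q ≤ Z := by
      rw [hZ]
      calc q = q ^ 1 := (pow_one q).symm
        _ ≤ q ^ (2 * A₁) := Nat.pow_le_pow_right (by omega) (by omega)
    have hnb : nb A₁ q = JJ Z := by rw [hZ]; rfl
    refine small_sy hN16 χ hχ z₀ A₁ hqA (C := C₁) (fun i hi => ?_)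
      (fun i p hp => bl_mem hq1' hp) (by positivity) ?_
    · have h1 := (hp₂ Z (by omega)).1 i (by rw [hnb] at hi; omega)
      rw [hZ] at h1
      exact h1
    · rw [← hE]
      have h1 := nb_le (A₁ := A₁) (by rw [← hL]; linarith) hq1' hqN
      rw [← hL] at h1
      have h2 : ((nb A₁ q - 1 : ℕ) : ℝ) ^ 2 ≤ (2 * (1 + Real.log L)) ^ 2 :=
        pow_le_pow_left₀ (Nat.cast_nonneg _) h1 2
      calc 8 * (E * C₁) * ((nb A₁ q - 1 : ℕ) : ℝ) ^ 2 ≤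
            8 * (E * C₁) * (2 * (1 + Real.log L)) ^ 2 :=
              mul_le_mul_of_nonneg_left h2 (by positivity)
        _ = 8 * (E * ((4 * C₁) * W)) := by rw [hW]; ring
        _ ≤ 8 * (E * (M * W)) := by gcongr
        _ ≤ _ := hmain
  have hc1 := hp₃ N hN16 q χ hχ (by omega) hqA
  have hd1 := small_two (N := N) χ hχ z₀ A₁ hA₁ (by rw [← hL]; exact hL16) hqA (τ := τ / 4)
    (t := δ / 8 * s) (H := M * W) (by positivity) (by rw [← hE]; exact hmain) (by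
      have h3 := hends N (by rw [← hL]; linarith) hz2 (hzh.trans hNh)
      refine h3.trans ?_
      rw [← hL]
      calc 3 * Real.log L + C₂ ≤ 3 * W + C₂ * W := by nlinarith
        _ = (3 + C₂) * W := by ring
        _ ≤ M * W := mul_le_mul_of_nonneg_right hM2 hW0.le) (by
      calc HB (Pz z₀) + HX χ (Pz N \ Pz q) ≤ M * 1 := by linarith
        _ ≤ M * W := mul_le_mul_of_nonneg_left hW1 hM0.le)
  refine ((hb1.or hc1).or hd1).mono (by linarith) fun f hf => ?_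
  by_contra hcon
  apply hf
  push Not at hcon
  obtain ⟨⟨e1, e2⟩, e3⟩ := hcon
  obtain ⟨hdj, hun⟩ := hp₄ q (by omega)
  have h1 := te_sharp χ A z₀ A₁ (la f) (by unfold nb Pool.Agent.LVB.JJ; omega) hdj hun e2
  refine h1.trans ?_
  have h2 : (2 : ℝ) ≤ Real.exp (δ / 2 * s) := by
    have h3 : 1 ≤ δ / 2 * s := by
      have h4 : (1 : ℝ) ^ 2 ≤ (δ / 2 * s) ^ 2 := by
        rw [mul_pow, hs2, one_pow]
        have h5 : 4 / δ ^ 2 ≤ L := by linarith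
        rw [div_le_iff₀ (by positivity)] at h5
        linarith
      exact le_of_sq_le_sq h4 (by positivity)
    have := Real.add_one_le_exp (δ / 2 * s)
    linarith
  have h4 := (abs_le.mp e3).1
  calc 2 * Real.exp (-PX χ (PP z₀ A₁ q) (la f) + 2 * sy χ z₀ A₁ (la f)) ≤
        Real.exp (δ / 2 * s) * Real.exp (-PX χ (IN N) (la f) + δ / 2 * s) := by
        refine mul_le_mul h2 (Real.exp_le_exp.mpr ?_) (Real.exp_pos _).le (Real.exp_pos _).le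
        linarith
    _ = Real.exp (-PX χ (IN N) (la f) + δ * s) := by
        rw [← Real.exp_add]
        congr 1
        ring

end Pool.Agent.TEM
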