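import Pool.Agent.Lib_helper15.TEM.ShC

/-! T12, part IV, sharp form: lower bound for almost all forms in the class `χ(-N) = -1`. -/

set_option autoImplicit false

namespace Pool.Agent.TEM

open Complex MeasureTheory Set Filter Topology
open Pool.Agent.LSP (tau MX sg1 wX QN KerL ExVec ExData ExZ)
open Pool.Agent.LEV (Um S2 IsNew co la Lh IN zN)
open Pool.Agent.LVB (IsST om AllNew HB ex JJ Bk Kk)
open Pool.Agent.LK (V KerC PQ)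
open Pool.Agent.LE
open Pool.Agent.LM (cv Pz th)
open Pool.Agent.LX

/-- typical size of the mollifier, sharp form -/
theorem typ_sharp_all {τ δ : ℝ} (hτ : 0 < τ) (hδ : 0 < δ) (C D C₀ : ℝ) (A₁ AA z₀ m₁ : ℕ)
    (hA₁ : 1 ≤ A₁) (hAA : 1 ≤ AA) : ∃ (p₁ N₀ : ℕ),
    ∀ (N : ℕ) [Fact N.Prime], N₀ ≤ N → ∀ (q : ℕ) [NeZero q] (χ : DirichletCharacter ℂ q), PQ χ →
    p₁ ≤ q → (q : ℝ) ^ (2 * A₁) ≤ N → HX χ (Pz N \ Pz q) ≤ C₀ →
    ∀ p₀ : ℕ, p₀.Prime → q ≤ p₀ → (p₀ : ℝ) ^ 2 ≤ N →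
    ∀ vB : ℕ → ℝ, SuppIn m₁ vB → (∀ e, |vB e| ≤ C) → ∃ Bad : S2 N → Prop, Small N τ Bad ∧
      ∀ f : S2 N, ¬ Bad f → D * (|MX m₁ vB (la f)| * te χ AA z₀ A₁ (la f) * |th p₀ (la f)|) ≤
        Real.exp (-PX χ (IN N) (la f) + δ * Real.sqrt (Real.log (Real.log N))) := by
  obtain ⟨p₂, N₂, hN₂⟩ := typ_sharp (τ := τ / 4) (δ := δ / 2) (by positivity) (by positivity)
    z₀ A₁ AA hA₁ hAA C₀
  obtain ⟨p₁, hp₁⟩ := typ_th (ε := τ / 4) (by positivity)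
  obtain ⟨C', N₃, hC', hN₃⟩ := typ_b (ε := τ / 4) (by positivity) C m₁
  obtain ⟨N₄, hN₄⟩ := ll_grow ((2 * (|D| * C' * 2) / δ) ^ 2)
  refine ⟨p₁ + p₂, N₂ + p₁ + N₃ + N₄, fun N _ hN q _ χ hχ hq hqN hHX p₀ hp0 hp0q hp0N vB hvB
    hvBle => ?_⟩
  obtain ⟨-, hL0, -⟩ := hN₄ N (by omega)
  have h1 : Small N (τ / 4) (fun f => ¬ te χ AA z₀ A₁ (la f) ≤
      Real.exp (-PX χ (IN N) (la f) + δ / 2 * Real.sqrt (Real.log (Real.log N)))) :=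
    hN₂ N (by omega) q χ hχ (by omega) hqN hHX
  have h2 : Small N (τ / 4) (fun f => ¬ (1 / 2 ≤ th p₀ (la f) ∧ th p₀ (la f) ≤ 2)) :=
    fun ι _ f hf u hu => hp₁ N (by omega) p₀ hp0 (by omega) hp0N f hf u hu
  have h3 : Small N (τ / 4) (fun f => C' < |MX m₁ vB (la f)|) :=
    fun ι _ f hf u hu => hN₃ N (by omega) vB hvB hvBle f hf u hu
  refine ⟨_, ((h1.or h2).or h3).mono (by linarith) fun f hf => hf, fun f hf => ?_⟩
  push Not at hf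
  obtain ⟨⟨c1, c2, c2'⟩, c3⟩ := hf
  obtain ⟨s, hs⟩ : ∃ s : ℝ, s = Real.sqrt (Real.log (Real.log N)) := ⟨_, rfl⟩
  rw [← hs] at c1 ⊢
  have hte0 : 0 < te χ AA z₀ A₁ (la f) :=
    (Real.exp_pos _).trans_le (te_two χ AA z₀ A₁ (la f)).1
  have e2 : |th p₀ (la f)| ≤ 2 := by
    rw [abs_of_nonneg (by linarith)]
    exact c2'
  obtain ⟨y, hy⟩ : ∃ y : ℝ, y = -PX χ (IN N) (la f) := ⟨_, rfl⟩
  rw [← hy] at c1 ⊢
  have e3 : |MX m₁ vB (la f)| * te χ AA z₀ A₁ (la f) * |th p₀ (la f)| ≤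
      C' * Real.exp (y + δ / 2 * s) * 2 :=
    mul_le_mul (mul_le_mul c3 c1 hte0.le hC'.le) e2 (abs_nonneg _) (by positivity)
  have e4 : 0 ≤ |MX m₁ vB (la f)| * te χ AA z₀ A₁ (la f) * |th p₀ (la f)| := by positivity
  have e5 : |D| * C' * 2 ≤ Real.exp (δ / 2 * s) := by
    have h5 : 2 * (|D| * C' * 2) / δ ≤ s := by
      rw [hs]
      exact Real.le_sqrt_of_sq_le hL0
    rw [div_le_iff₀ hδ] at h5
    have h6 := Real.add_one_le_exp (δ / 2 * s)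
    linarith
  calc D * (|MX m₁ vB (la f)| * te χ AA z₀ A₁ (la f) * |th p₀ (la f)|) ≤
        |D| * (|MX m₁ vB (la f)| * te χ AA z₀ A₁ (la f) * |th p₀ (la f)|) :=
          mul_le_mul_of_nonneg_right (le_abs_self D) e4
    _ ≤ |D| * (C' * Real.exp (y + δ / 2 * s) * 2) := mul_le_mul_of_nonneg_left e3 (abs_nonneg _)
    _ = (|D| * C' * 2) * Real.exp (y + δ / 2 * s) := by ring
    _ ≤ Real.exp (δ / 2 * s) * Real.exp (y + δ / 2 * s) :=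
        mul_le_mul_of_nonneg_right e5 (Real.exp_pos _).le
    _ = Real.exp (y + δ * s) := by
        rw [← Real.exp_add]
        congr 1
        ring

/-- **part IV, class `χ(-N) = -1`, sharp form** -/
theorem four_sharp : ∀ ε : ℝ, 0 < ε → ∃ κ : ℝ, 0 < κ ∧ ∀ δ : ℝ, 0 < δ → ∃ N₀ : ℕ, ∀ (N : ℕ)
    [Fact N.Prime], N₀ ≤ N → ∀ (q : ℕ) [NeZero q] (χ : DirichletCharacter ℂ q) (β : ℝ),
    Ex κ N χ β → χ (-(N : ZMod q)) = -1 →
    (1 - ε) * (N / 24) ≤ ({f : S2 N | (IsNew f ∧ co f N = 1) ∧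
      Real.exp (PX χ (IN N) (la f) - δ * Real.sqrt (Real.log (Real.log N))) ≤
        ‖Lh f‖ * |U χ 1 N (la f)|}.ncard : ℝ) := by
  intro ε hε
  obtain ⟨m₀, s, e, κ', τ, N₁, hm₀, hs, he, hκ', hτ, hex⟩ :=
    ex_natT (q := 1) (by norm_num) (by norm_num) hε
  rcases (Finset.sum_nonneg fun m (_ : m ∈ Finset.Icc 1 m₀) => sq_nonneg (s m)).eq_or_lt with h | h
  · obtain ⟨N₂, hN₂⟩ := vec_zero 1 hs h.symm he
    refine ⟨1, one_pos, fun δ _ => ⟨N₁ + N₂, fun N _ hN q _ χ β _ _ => ?_⟩⟩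
    obtain ⟨T, ρ, B₀, E, x, hx, h0⟩ := hN₂ N (by omega)
    have h1 := hex N (by omega) T ρ B₀ E x hx (fun _ => False) (fun f hf u hu => by
      have : u = ∅ := Finset.eq_empty_of_forall_notMem fun i hi => hu i hi
      rw [this, Finset.sum_empty]
      exact hτ.le)
    refine h1.trans (ncard_mono fun f hf => ?_)
    have h2 := hf.1
    rw [mx_zero h0, abs_zero, mul_zero] at h2
    exact absurd h2 (not_le.mpr hκ')
  · obtain ⟨κ₀, C, A₁, AA, z₀, m₁, N₂, hκ₀, hC, hA₁, hAA, hmin⟩ := minus_mainT hm₀ hs h he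
    obtain ⟨κ₃, hκ₃, hlarge⟩ := large_u
    obtain ⟨κ₄, C₀, N₆, hκ₄, -, hbig⟩ := big_sum
    refine ⟨min κ₀ (min κ₃ κ₄), lt_min hκ₀ (lt_min hκ₃ hκ₄), fun δ hδ => ?_⟩
    obtain ⟨p₁, N₃, hN₃⟩ := typ_sharp_all hτ (δ := δ) hδ C (C / κ') C₀ A₁ AA z₀ m₁ hA₁ hAA
    obtain ⟨N₄, hN₄⟩ := hlarge p₁
    refine ⟨N₁ + N₂ + N₃ + N₄ + N₆ + 3, fun N _ hN q _ χ β hE hpar => ?_⟩
    have hN3 : 3 ≤ N := by omega
    obtain ⟨E, x, vB, ρ, B₀, p₀, hv, hvB, hvBle, hp0, hp0q, hp0N, hqN, hpt⟩ :=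
      hmin N (by omega) Fact.out q χ β (hE.mono (min_le_left _ _) hN3) (by rw [hpar]; norm_num)
    obtain ⟨Bad, hBad, hgood⟩ := hN₃ N (by omega) q χ hE.pq
      (hN₄ N (by omega) q χ β (hE.mono ((min_le_right _ _).trans (min_le_left _ _)) hN3)) hqN
      (hbig N (by omega) q χ β (hE.mono ((min_le_right _ _).trans (min_le_right _ _)) hN3))
      p₀ hp0 hp0q hp0N vB hvB hvBle
    have h1 := hex N (by omega) _ ρ B₀ E x hv Bad (fun f hf u hu => hBad _ f hf u hu)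
    refine h1.trans (ncard_mono fun f hf => ?_)
    obtain ⟨h2, h3⟩ := hf
    have h4 := hgood f h3
    have h5 := hpt (la f)
    obtain ⟨Y, hYd⟩ : ∃ Y : ℝ, Y = |MX m₁ vB (la f)| * te χ AA z₀ A₁ (la f) * |th p₀ (la f)| :=
      ⟨_, rfl⟩
    obtain ⟨R, hR⟩ : ∃ R : ℝ, R = Real.exp (-PX χ (IN N) (la f) +
        δ * Real.sqrt (Real.log (Real.log N))) := ⟨_, rfl⟩
    rw [← hYd, ← hR] at h4
    rw [← hYd] at h5
    have hR0 : 0 < R := by rw [hR]; exact Real.exp_pos _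
    have h6 : κ' ≤ κ' * ((‖Lh f‖ * |U χ 1 N (la f)|) * R) := by
      calc κ' ≤ ‖Lh f‖ * |MX E x (la f)| := h2
        _ ≤ ‖Lh f‖ * (C * |U χ 1 N (la f)| * Y) := mul_le_mul_of_nonneg_left h5 (norm_nonneg _)
        _ = κ' * ((‖Lh f‖ * |U χ 1 N (la f)|) * (C / κ' * Y)) := by field_simp
        _ ≤ κ' * ((‖Lh f‖ * |U χ 1 N (la f)|) * R) := by gcongr
    have h7 : 1 ≤ (‖Lh f‖ * |U χ 1 N (la f)|) * R := (le_mul_iff_one_le_right hκ').mp h6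
    have h8 : Real.exp (PX χ (IN N) (la f) - δ * Real.sqrt (Real.log (Real.log N))) = R⁻¹ := by
      rw [hR, ← Real.exp_neg]
      congr 1
      ring
    rw [h8, inv_le_iff_one_le_mul₀ hR0]
    exact h7

/-- **part IV, class `χ(-N) = 1`, sharp form** -/
theorem four_plus_sharp : ∀ ε : ℝ, 0 < ε → ∃ κ : ℝ, 0 < κ ∧ ∀ δ : ℝ, 0 < δ → ∃ N₀ : ℕ,
    ∀ (N : ℕ) [Fact N.Prime], N₀ ≤ N → ∀ (q : ℕ) [NeZero q] (χ : DirichletCharacter ℂ q) (β : ℝ),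
    Ex κ N χ β → χ (-(N : ZMod q)) = 1 →
    (3 / 5 - ε) * (N / 24) ≤ ({f : S2 N | (IsNew f ∧ co f N = 1) ∧
      Real.exp (PX χ (IN N) (la f) - δ * Real.sqrt (Real.log (Real.log N))) ≤
      ‖Lh f‖ * (|U χ 2 N (la f)| / Real.log N + |U χ 0 N (la f)| / (1 - β))}.ncard : ℝ) := by
  intro ε hε
  obtain ⟨m₀, s, e, κ', τ, N₁, hm₀, hs, he, hκ', hτ, hex⟩ :=
    ex_natT (q := 3 / 5) (by norm_num) (by norm_num) hε
  rcases (Finset.sum_nonneg fun m (_ : m ∈ Finset.Icc 1 m₀) => sq_nonneg (s m)).eq_or_lt with h | h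
  · obtain ⟨N₂, hN₂⟩ := vec_zero (3 / 5) hs h.symm he
    refine ⟨1, one_pos, fun δ _ => ⟨N₁ + N₂, fun N _ hN q _ χ β _ _ => ?_⟩⟩
    obtain ⟨T, ρ, B₀, E, x, hx, h0⟩ := hN₂ N (by omega)
    have h1 := hex N (by omega) T ρ B₀ E x hx (fun _ => False) (fun f hf u hu => by
      have : u = ∅ := Finset.eq_empty_of_forall_notMem fun i hi => hu i hi
      rw [this, Finset.sum_empty]
      exact hτ.le)
    refine h1.trans (ncard_mono fun f hf => ?_)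
    have h2 := hf.1
    rw [mx_zero h0, abs_zero, mul_zero] at h2
    exact absurd h2 (not_le.mpr hκ')
  · obtain ⟨κ₀, C, A₁, AA, z₀, m₁, N₂, hκ₀, hC, hA₁, hAA, hmin⟩ := plus_mainT hm₀ hs h he
    obtain ⟨κ₃, hκ₃, hlarge⟩ := large_u
    obtain ⟨κ₄, C₀, N₆, hκ₄, -, hbig⟩ := big_sum
    refine ⟨min κ₀ (min κ₃ κ₄), lt_min hκ₀ (lt_min hκ₃ hκ₄), fun δ hδ => ?_⟩
    obtain ⟨p₁, N₃, hN₃⟩ := typ_sharp_all hτ (δ := δ) hδ C (C / κ') C₀ A₁ AA z₀ m₁ hA₁ hAA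
    obtain ⟨N₄, hN₄⟩ := hlarge p₁
    refine ⟨N₁ + N₂ + N₃ + N₄ + N₆ + 3, fun N _ hN q _ χ β hE hpar => ?_⟩
    have hN3 : 3 ≤ N := by omega
    obtain ⟨E, x, vB, ρ, B₀, p₀, hv, hvB, hvBle, hp0, hp0q, hp0N, hqN, hpt⟩ :=
      hmin N (by omega) Fact.out q χ β (hE.mono (min_le_left _ _) hN3) (by rw [hpar]; norm_num)
    obtain ⟨Bad, hBad, hgood⟩ := hN₃ N (by omega) q χ hE.pq
      (hN₄ N (by omega) q χ β (hE.mono ((min_le_right _ _).trans (min_le_left _ _)) hN3)) hqN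
      (hbig N (by omega) q χ β (hE.mono ((min_le_right _ _).trans (min_le_right _ _)) hN3))
      p₀ hp0 hp0q hp0N vB hvB hvBle
    have h1 := hex N (by omega) _ ρ B₀ E x hv Bad (fun f hf u hu => hBad _ f hf u hu)
    have hd0 : 0 < 1 - β := by have := hE.lt1; linarith
    have hlog0 : 0 ≤ Real.log N := Real.log_natCast_nonneg N
    refine h1.trans (ncard_mono fun f hf => ?_)
    obtain ⟨h2, h3⟩ := hf
    have h4 := hgood f h3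
    have h5 := hpt (la f)
    obtain ⟨Y, hYd⟩ : ∃ Y : ℝ, Y = |MX m₁ vB (la f)| * te χ AA z₀ A₁ (la f) * |th p₀ (la f)| :=
      ⟨_, rfl⟩
    obtain ⟨X, hX⟩ : ∃ X : ℝ, X = |U χ 2 N (la f)| / Real.log N + |U χ 0 N (la f)| / (1 - β) :=
      ⟨_, rfl⟩
    have hX0 : 0 ≤ X := by rw [hX]; positivity
    obtain ⟨R, hR⟩ : ∃ R : ℝ, R = Real.exp (-PX χ (IN N) (la f) +
        δ * Real.sqrt (Real.log (Real.log N))) := ⟨_, rfl⟩
    rw [← hYd, ← hR] at h4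
    rw [← hYd, ← hX] at h5
    rw [← hX]
    have hR0 : 0 < R := by rw [hR]; exact Real.exp_pos _
    have h6 : κ' ≤ κ' * ((‖Lh f‖ * X) * R) := by
      calc κ' ≤ ‖Lh f‖ * |MX E x (la f)| := h2
        _ ≤ ‖Lh f‖ * (C * X * Y) := mul_le_mul_of_nonneg_left h5 (norm_nonneg _)
        _ = κ' * ((‖Lh f‖ * X) * (C / κ' * Y)) := by field_simp
        _ ≤ κ' * ((‖Lh f‖ * X) * R) := by gcongr
    have h7 : 1 ≤ (‖Lh f‖ * X) * R := (le_mul_iff_one_le_right hκ').mp h6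
    have h8 : Real.exp (PX χ (IN N) (la f) - δ * Real.sqrt (Real.log (Real.log N))) = R⁻¹ := by
      rw [hR, ← Real.exp_neg]
      congr 1
      ring
    rw [h8, inv_le_iff_one_le_mul₀ hR0]
    exact h7

end Pool.Agent.TEM
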