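import Pool.Agent.Lib_helper31.LKF.KE
import Pool.Agent.Lib_helper15.TEM.Dat
import Pool.Agent.Lib_helper53.LEF.EB

/-! T12, parts I and IV: the vector of both classes (from `LX.vec_exists`). -/

set_option autoImplicit false

namespace Pool.Agent.TEM

open Complex MeasureTheory Set Filter Topology
open Pool.Agent.LSP (tau MX sg1 wX QN KerL ExVec ExData ExZ)
open Pool.Agent.LEV (Um)
open Pool.Agent.LVB (IsST)
open Pool.Agent.LK (V KerC PQ)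
open Pool.Agent.LE
open Pool.Agent.LG (Par Ai J3)
open Pool.Agent.LM (cv Pz th)
open Pool.Agent.LX

/-- the vector has all properties if the main terms are right -/
theorem vec_existsT (J : Finset ℕ) {m₀ : ℕ} (hm₀ : 1 ≤ m₀) {s : ℕ → ℝ} (hs : SuppIn m₀ s)
    {e : ℝ} (he : 0 < e) (q' : ℝ) (η c C : ℝ) (A₁ AA z₀ m₁ : ℕ) :
    ∃ N₀ : ℕ, ∀ N : ℕ, N₀ ≤ N → N.Prime → ∀ (q : ℕ) [NeZero q] (χ : DirichletCharacter ℂ q)
      (β : ℝ) (I : Finset ℕ) (P : Measure (ℕ → ℝ)) (K : ℕ) (b vB : ℕ → ℝ)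
      (p₀ : ℕ) (F₁ F₂ : ℝ), DatT η m₀ s c C A₁ AA z₀ m₁ N χ β I P K b vB p₀ F₁ F₂ → PQ χ → (∀ i ∈ J, χ (-(N : ZMod q)) = (-1) ^ i) →
      ∀ θ : ℕ → ℝ, (∀ i ∈ J, |θ i| ≤ (N : ℝ) ^ dl) →
      ∑ m ∈ Finset.Icc 1 m₀, s m ^ 2 - e / 2 ≤
        ∑ i ∈ J, θ i * (RR χ P I (K * m₀) (HP (K * m₀) b (vS s)) i N).re →
      ∑ i ∈ J, ∑ i' ∈ J, θ i * θ i' * (JJ χ P I (K * K) (HP K b b) i i' N).re ≤
        2 / q' * ∑ m ∈ Finset.Icc 1 m₀, s m ^ 2 + e / 2 →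
      ∃ (ρ : ℝ → ℝ) (B₀ : ℕ),
        ExVec q' m₀ s e N ((N : ℝ) ^ nu) ρ B₀ (Aa q N * K ^ 2) (xx χ J θ N K b) := by
  obtain ⟨N₁, hN₁⟩ := as_par
  obtain ⟨N₂, hN₂⟩ := uu_le J
  obtain ⟨N₃, hN₃⟩ := asm_lin J hm₀ hs
  obtain ⟨N₄, hN₄⟩ := asm_quad J
  obtain ⟨N₅, hN₅⟩ := as_grow 4 0 (a := nu) nu_pos
  obtain ⟨N₆, hN₆⟩ := as_grow (J.card * (m₀ : ℝ) ^ 2) 1 (a := 1 / 100) (by norm_num)
  obtain ⟨N₇, hN₇⟩ := as_grow (2 / e) 0 (a := nu / 11) (by have := nu_pos; positivity)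
  refine ⟨N₁ + N₂ + N₃ + N₄ + N₅ + N₆ + N₇ + 1,
    fun N hN hNp q _ χ β I P K b vB p₀ F₁ F₂ hD hPQ hpar θ hθ hl hq => ?_⟩
  have hN1' : 1 ≤ N := by omega
  have hN1 : (1 : ℝ) ≤ N := by exact_mod_cast hN1'
  have hN0 : (0 : ℝ) < N := by linarith
  have hq1 : 1 ≤ q := Nat.one_le_iff_ne_zero.mpr (NeZero.ne q)
  obtain ⟨hPar, hYA, hA, hA1⟩ := hN₁ N (by omega) q hq1 hD.q_le
  have hT : (4 : ℝ) ≤ (N : ℝ) ^ nu := by simpa using hN₅ N (by omega)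
  obtain ⟨ρ, hρ⟩ := Pool.Agent.LK.kerC_exists_pr hT
  obtain ⟨B₀, hB₀⟩ := exists_nat_ge (1 + ((N : ℝ) ^ nu) ^ 2)
  have hlin := hN₃ N (by omega) q χ hPQ hD.q_le I P hD.prim hD.st K hD.K1 hD.K_le hD.KI' b hD.supp
    hD.b_le θ hθ
  obtain ⟨hz, hquad⟩ := hN₄ N (by omega) hNp q χ hPQ hD.q_le hpar I P hD.prim hD.st K hD.K1
    hD.K_le hD.KI b hD.supp hD.b_le hD.zero θ hθ ρ hρ B₀ hB₀
  have hE1 : 1 ≤ Aa q N * K ^ 2 := Nat.mul_pos hA1 (pow_pos hD.K1 2)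
  have hEle : ((Aa q N * K ^ 2 : ℕ) : ℝ) ≤ (N : ℝ) ^ (1 / 2 + nu / 20) * ((N : ℝ) ^ dl) ^ 2 := by
    push_cast
    have := hD.K_le
    gcongr
  have hsm : (N : ℝ) ^ (-(nu / 11)) ≤ e / 2 := by
    have h1 : 2 / e ≤ (N : ℝ) ^ (nu / 11) := by simpa using hN₇ N (by omega)
    rw [Real.rpow_neg hN0.le, inv_le_comm₀ (by positivity) (by positivity), inv_div]
    exact h1
  have hsm2 : (N : ℝ) ^ (-(1 / 20) : ℝ) ≤ e / 2 := by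
    refine le_trans ?_ hsm
    exact Real.rpow_le_rpow_of_exponent_le hN1 (by unfold nu; norm_num)
  refine ⟨ρ, B₀, ?_⟩
  refine
    { ker := hρ.toKerL, bB := hB₀, one := hE1, supp := xx_supp χ J θ N hD.K1 hD.supp, zero := hz,
      size := ?_, ww := ?_, lin := ?_, quad := ?_ }
  · calc ((N : ℝ) ^ nu) ^ 2 * ((Aa q N * K ^ 2 : ℕ) : ℝ) ≤
        ((N : ℝ) ^ nu) ^ 2 * ((N : ℝ) ^ (1 / 2 + nu / 20) * ((N : ℝ) ^ dl) ^ 2) :=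
          mul_le_mul_of_nonneg_left hEle (by positivity)
      _ = (N : ℝ) ^ (2 * nu + (1 / 2 + nu / 20)) * ((N : ℝ) ^ dl) ^ 2 := by
          rw [Real.rpow_add hN0 (2 * nu), ← mul_assoc]
          congr 2
          rw [← Real.rpow_natCast, ← Real.rpow_mul hN0.le]
          congr 1
          push_cast
          ring
      _ ≤ (N : ℝ) ^ (9 / 10 : ℝ) := pow_dl hN1' 2 _ _ (by unfold nu dl; norm_num)
  · intro m hm1 hm2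
    have hX : ∀ k, |xx χ J θ N K b k| ≤ J.card * (N : ℝ) ^ (2 * dl) * (N : ℝ) ^ dl * K ^ 2 :=
      fun k => hp_abs_pr (uu_supp χ J θ N) hD.supp (hN₂ N (by omega) q χ hD.q_le θ hθ) hD.b_le k
    have h1 := ww_le (xx_supp χ J θ N hD.K1 hD.supp) hE1 hX hm1 hm2
    refine h1.trans ?_
    have h2 : Real.log ((Aa q N * K ^ 2 : ℕ) : ℝ) ≤ 2 * Real.log N := by
      have h3 : ((Aa q N * K ^ 2 : ℕ) : ℝ) ≤ (N : ℝ) ^ (1 : ℝ) :=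
        hEle.trans (pow_dl hN1' 2 _ _ (by unfold nu dl; norm_num))
      rw [Real.rpow_one] at h3
      have h4 : Real.log ((Aa q N * K ^ 2 : ℕ) : ℝ) ≤ Real.log N :=
        Real.log_le_log (by exact_mod_cast hE1) h3
      have h5 : 0 ≤ Real.log N := Real.log_nonneg hN1
      linarith
    have h3 : J.card * (m₀ : ℝ) ^ 2 * (1 + 2 * Real.log N) ≤ (N : ℝ) ^ (1 / 100 : ℝ) := by
      simpa using hN₆ N (by omega)
    have h4 : (N : ℝ) ^ (2 * dl) = ((N : ℝ) ^ dl) ^ 2 := by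
      rw [← Real.rpow_natCast, ← Real.rpow_mul hN0.le]
      congr 1
      push_cast
      ring
    have hK2 : (K : ℝ) ^ 2 ≤ ((N : ℝ) ^ dl) ^ 2 := by
      have := hD.K_le
      gcongr
    have hlogN : 0 ≤ Real.log N := Real.log_nonneg hN1
    calc (J.card : ℝ) * (N : ℝ) ^ (2 * dl) * (N : ℝ) ^ dl * K ^ 2 * (m₀ : ℝ) ^ 2 *
          (1 + Real.log ((Aa q N * K ^ 2 : ℕ) : ℝ)) ≤
          (J.card : ℝ) * (N : ℝ) ^ (2 * dl) * (N : ℝ) ^ dl * ((N : ℝ) ^ dl) ^ 2 * (m₀ : ℝ) ^ 2 *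
          (1 + 2 * Real.log N) := by gcongr
      _ = (J.card * (m₀ : ℝ) ^ 2 * (1 + 2 * Real.log N)) * ((N : ℝ) ^ dl) ^ 5 := by
          rw [h4]
          ring
      _ ≤ (N : ℝ) ^ (1 / 100 : ℝ) * ((N : ℝ) ^ dl) ^ 5 :=
          mul_le_mul_of_nonneg_right h3 (by positivity)
      _ ≤ (N : ℝ) ^ (1 / 20 : ℝ) := pow_dl hN1' 5 _ _ (by unfold dl; norm_num)
  · have h1 := (abs_le.mp hlin).1
    have h2 : (fun m : ℕ => Real.sqrt (m : ℝ) * s m) = vS s := rfl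
    rw [h2] at h1
    linarith
  · have h1 := (abs_le.mp hquad).2
    linarith

end Pool.Agent.TEM
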